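import Pool.Agent.Lib.MP_d8403e_co.Big

/-!
# Sets with loss one contain a three-term progression
-/

namespace Pool.Agent.Lib.MP_d8403e_co

open Finset

lemma two_le_loss {S : Finset ℕ} {a b c d : ℕ} (ha : a ∈ S) (hb : b ∈ S) (hc : c ∈ S) (hd : d ∈ S)
    (h : a + d = b + c) (h1 : a ≠ d) (h2 : b ≠ c) (h3 : a ≠ b) (h4 : a ≠ c) : 2 ≤ loss S := by
  have hc4 : ({a, d, b, c} : Finset ℕ).card = 2 * 2 := by
    rw [card_insert_of_notMem, card_insert_of_notMem, card_insert_of_notMem, card_singleton] <;>
      simp only [mem_insert, mem_singleton] <;> omega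
  have h5 := loss_symm 2 {a, d, b, c} (a + d) hc4 (by
    intro x hx
    simp only [mem_insert, mem_singleton] at hx ⊢
    omega)
  have h6 : ({a, d, b, c} : Finset ℕ) ⊆ S := by
    intro x hx
    simp only [mem_insert, mem_singleton] at hx
    rcases hx with h | h | h | h <;> rw [h] <;> assumption
  exact h5.trans (loss_mono h6)

lemma exists_ap {S : Finset ℕ} (h : loss S = 1) :
    ∃ a ∈ S, ∃ b ∈ S, ∃ c ∈ S, a < b ∧ b < c ∧ a + c = 2 * b := by
  obtain ⟨v, ⟨a, ha, d, hd, b, hb, c, hc, hq, rfl⟩, hv0⟩ :=
    exists_quad_ne_zero (rk_pos_of_loss (A := S) (by omega))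
  have hz1 : ¬ (a = b ∧ d = c) := by
    rintro ⟨rfl, rfl⟩
    apply hv0; ext x; simp [qv]
  have hz2 : ¬ (a = c ∧ d = b) := by
    rintro ⟨rfl, rfl⟩
    apply hv0; ext x; simp [qv]
  by_cases hbc : b = c
  · subst hbc
    rcases lt_trichotomy a d with hlt | heq | hlt
    · exact ⟨a, ha, b, hb, d, hd, by omega, by omega, by omega⟩
    · exfalso; apply hz1; omega
    · exact ⟨d, hd, b, hb, a, ha, by omega, by omega, by omega⟩
  · by_cases had : a = d
    · subst had
      rcases lt_trichotomy b c with hlt | heq | hlt
      · exact ⟨b, hb, a, ha, c, hc, by omega, by omega, by omega⟩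
      · exact absurd heq hbc
      · exact ⟨c, hc, a, ha, b, hb, by omega, by omega, by omega⟩
    · exfalso
      have h3 : a ≠ b := by
        intro h'; apply hz1; omega
      have h4 : a ≠ c := by
        intro h'; apply hz2; omega
      have := two_le_loss ha hb hc hd hq had hbc h3 h4
      omega

/-- Pairs of integers of the same parity. -/
def parPairs (n : ℕ) : Finset (ℕ × ℕ) :=
  (range n ×ˢ range n).filter (fun p => p.1 < p.2 ∧ p.1 % 2 = p.2 % 2)

lemma card_parPairs (n : ℕ) : 4 * (parPairs n).card ≤ n ^ 2 := by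
  induction n with
  | zero => simp [parPairs]
  | succ n ih =>
    have hsub : parPairs (n + 1) ⊆
        parPairs n ∪ ((range (n / 2)).image (fun i => (2 * i + n % 2, n))) := by
      rintro ⟨a, c⟩ h
      simp only [parPairs, mem_filter, mem_product, mem_range, mem_union, mem_image,
        Prod.mk.injEq] at h ⊢
      obtain ⟨⟨h1, h2⟩, h3, h4⟩ := h
      by_cases hc : c = n
      · right
        exact ⟨a / 2, by omega, by omega, by omega⟩
      · left
        exact ⟨⟨by omega, by omega⟩, h3, h4⟩
    have h1 := card_le_card hsub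
    have h2 := card_union_le (parPairs n) ((range (n / 2)).image (fun i => (2 * i + n % 2, n)))
    have h3 := card_image_le (s := range (n / 2)) (f := fun i => (2 * i + n % 2, n))
    rw [card_range] at h3
    have h4 : (n + 1) ^ 2 = n ^ 2 + 2 * n + 1 := by ring
    omega

/-- The number of sets of size `P` with loss one. -/
lemma card_loss_one_le (n P : ℕ) (hP : 4 ≤ P) :
    4 * (P - 3) * (((range n).powersetCard P).filter (fun S => loss S = 1)).card ≤
      n ^ 3 * n.choose (P - 4) := by
  have hsub : ((range n).powersetCard P).filter (fun S => loss S = 1) ⊆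
      (parPairs n).biUnion (fun p => ((range n).powersetCard (P - 3)).image
        (fun U => U ∪ {p.1, (p.1 + p.2) / 2, p.2})) := by
    intro S hS
    rw [mem_filter, mem_powersetCard] at hS
    obtain ⟨⟨hSn, hSP⟩, hl⟩ := hS
    obtain ⟨a, ha, b, hb, c, hc, hab, hbc, hac⟩ := exists_ap hl
    rw [mem_biUnion]
    refine ⟨(a, c), ?_, ?_⟩
    · simp only [parPairs, mem_filter, mem_product]
      exact ⟨⟨hSn ha, hSn hc⟩, by omega, by omega⟩
    · have hb2 : (a + c) / 2 = b := by omega
      simp only [hb2]
      have hT : ({a, b, c} : Finset ℕ) ⊆ S := by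
        intro x hx
        simp only [mem_insert, mem_singleton] at hx
        rcases hx with h | h | h <;> rw [h] <;> assumption
      have hTc : ({a, b, c} : Finset ℕ).card = 3 := by
        rw [card_insert_of_notMem, card_insert_of_notMem, card_singleton] <;>
          simp only [mem_insert, mem_singleton] <;> omega
      rw [mem_image]
      refine ⟨S \ {a, b, c}, ?_, sdiff_union_of_subset hT⟩
      rw [mem_powersetCard, card_sdiff_of_subset hT, hTc, hSP]
      exact ⟨sdiff_subset.trans hSn, rfl⟩
  have h1 : (((range n).powersetCard P).filter (fun S => loss S = 1)).card ≤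
      (parPairs n).card * n.choose (P - 3) := by
    refine (card_le_card hsub).trans (card_biUnion_le.trans ?_)
    calc _ ≤ ∑ _p ∈ parPairs n, n.choose (P - 3) := by
          apply sum_le_sum
          intro p _
          refine card_image_le.trans ?_
          rw [card_powersetCard, card_range]
      _ = _ := by rw [sum_const, smul_eq_mul]
  have h2 := card_parPairs n
  have h4 : n.choose (P - 3) * (P - 3) ≤ n * n.choose (P - 4) := by
    have h5 := Nat.choose_succ_right_eq n (P - 4)
    have h6 : P - 4 + 1 = P - 3 := by omega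
    rw [h6] at h5
    rw [h5, mul_comm n]
    exact Nat.mul_le_mul_left _ (Nat.sub_le _ _)
  calc 4 * (P - 3) * (((range n).powersetCard P).filter (fun S => loss S = 1)).card
      ≤ 4 * (P - 3) * ((parPairs n).card * n.choose (P - 3)) := Nat.mul_le_mul_left _ h1
    _ = (4 * (parPairs n).card) * (n.choose (P - 3) * (P - 3)) := by ring
    _ ≤ n ^ 2 * (n * n.choose (P - 4)) := Nat.mul_le_mul h2 h4
    _ = _ := by ring

end Pool.Agent.Lib.MP_d8403e_co
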