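import Pool.Agent.Lib.MP_d8403e_co.Defs

/-!
# Positive differences and the loss
-/

namespace Pool.Agent.Lib.MP_d8403e_co

open Finset

/-- The positive differences of `A`. -/
def pd (A : Finset ℕ) : Finset ℕ :=
  ((A ×ˢ A).filter (fun p => p.2 < p.1)).image (fun p => p.1 - p.2)

lemma mem_pd {A : Finset ℕ} {d : ℕ} : d ∈ pd A ↔ 0 < d ∧ ∃ y ∈ A, y + d ∈ A := by
  unfold pd
  simp only [mem_image, mem_filter, mem_product, Prod.exists]
  constructor
  · rintro ⟨a, b, ⟨⟨ha, hb⟩, hlt⟩, rfl⟩
    refine ⟨by omega, b, hb, ?_⟩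
    have : b + (a - b) = a := by omega
    rw [this]; exact ha
  · rintro ⟨h0, y, hy, hyd⟩
    exact ⟨y + d, y, ⟨⟨hyd, hy⟩, by omega⟩, by omega⟩

lemma pd_mono {A B : Finset ℕ} (h : A ⊆ B) : pd A ⊆ pd B := by
  intro d hd
  rw [mem_pd] at hd ⊢
  obtain ⟨h0, y, hy, hyd⟩ := hd
  exact ⟨h0, y, h hy, h hyd⟩

lemma diffSet_eq {S : Finset ℕ} (hS : S.Nonempty) :
    diffSet S = ({0} ∪ (pd S).image (fun d : ℕ => (d : ℤ))) ∪ (pd S).image (fun d : ℕ => -(d : ℤ)) := by
  ext z
  simp only [diffSet, mem_image, mem_product, Prod.exists, mem_union, mem_singleton, mem_pd]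
  constructor
  · rintro ⟨a, b, ⟨ha, hb⟩, rfl⟩
    rcases lt_trichotomy a b with h | h | h
    · right
      refine ⟨b - a, ⟨by omega, a, ha, ?_⟩, by omega⟩
      have : a + (b - a) = b := by omega
      rw [this]; exact hb
    · left; left; subst h; ring
    · left; right
      refine ⟨a - b, ⟨by omega, b, hb, ?_⟩, by omega⟩
      have : b + (a - b) = a := by omega
      rw [this]; exact ha
  · rintro ((h | ⟨d, ⟨h0, y, hy, hyd⟩, rfl⟩) | ⟨d, ⟨h0, y, hy, hyd⟩, rfl⟩)
    · obtain ⟨s, hs⟩ := hS
      exact ⟨s, s, ⟨hs, hs⟩, by rw [h]; ring⟩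
    · exact ⟨y + d, y, ⟨hyd, hy⟩, by push_cast; ring⟩
    · exact ⟨y, y + d, ⟨hy, hyd⟩, by push_cast; ring⟩

lemma card_diffSet {S : Finset ℕ} (hS : S.Nonempty) :
    (diffSet S).card = 2 * (pd S).card + 1 := by
  rw [diffSet_eq hS, card_union_of_disjoint, card_union_of_disjoint, card_image_of_injective,
    card_image_of_injective, card_singleton]
  · ring
  · intro a b h
    simpa using h
  · intro a b h
    simpa using h
  · rw [disjoint_left]
    intro z hz hz'
    rw [mem_singleton] at hz
    simp only [mem_image, mem_pd] at hz'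
    obtain ⟨d, ⟨h0, -⟩, hd⟩ := hz'
    omega
  · rw [disjoint_left]
    intro z hz hz'
    simp only [mem_union, mem_singleton, mem_image, mem_pd] at hz hz'
    obtain ⟨d, ⟨h0, -⟩, hd⟩ := hz'
    rcases hz with hz | ⟨d', ⟨h0', -⟩, hd'⟩ <;> omega

lemma diffSet_empty : diffSet ∅ = ∅ := by
  simp [diffSet]

/-- The elements `s` of `A` such that `p - s` is already a difference of `A`. -/
def G (p : ℕ) (A : Finset ℕ) : Finset ℕ := A.filter (fun s => p - s ∈ pd A)

lemma G_subset (p : ℕ) (A : Finset ℕ) : G p A ⊆ A := filter_subset _ _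

lemma mem_G {p : ℕ} {A : Finset ℕ} (hp : ∀ x ∈ A, x < p) {s : ℕ} :
    s ∈ G p A ↔ s ∈ A ∧ ∃ t ∈ A, ∃ u ∈ A, p + u = s + t := by
  unfold G
  rw [mem_filter, mem_pd]
  constructor
  · rintro ⟨hs, h0, y, hy, hyd⟩
    have := hp s hs
    exact ⟨hs, _, hyd, y, hy, by omega⟩
  · rintro ⟨hs, t, ht, u, hu, h⟩
    have h1 := hp s hs
    have h2 := hp t ht
    refine ⟨hs, by omega, u, hu, ?_⟩
    have : u + (p - s) = t := by omega
    rw [this]; exact ht

lemma pd_insert {p : ℕ} {A : Finset ℕ} (hp : ∀ x ∈ A, x < p) :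
    pd (insert p A) = pd A ∪ A.image (fun s => p - s) := by
  ext d
  simp only [mem_union, mem_pd, mem_image, mem_insert]
  constructor
  · rintro ⟨h0, y, hy, hyd⟩
    rcases hy with rfl | hy
    · rcases hyd with hyd | hyd
      · omega
      · have := hp _ hyd
        omega
    · rcases hyd with hyd | hyd
      · right; exact ⟨y, hy, by omega⟩
      · left; exact ⟨h0, y, hy, hyd⟩
  · rintro (⟨h0, y, hy, hyd⟩ | ⟨s, hs, rfl⟩)
    · exact ⟨h0, y, Or.inr hy, Or.inr hyd⟩
    · have := hp s hs
      exact ⟨by omega, s, Or.inr hs, Or.inl (by omega)⟩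

lemma card_pd_insert {p : ℕ} {A : Finset ℕ} (hp : ∀ x ∈ A, x < p) :
    (pd (insert p A)).card + (G p A).card = (pd A).card + A.card := by
  rw [pd_insert hp]
  have h1 : pd A ∪ A.image (fun s => p - s)
      = pd A ∪ (A.filter (fun s => p - s ∉ pd A)).image (fun s => p - s) := by
    ext d
    simp only [mem_union, mem_image, mem_filter]
    constructor
    · rintro (h | ⟨s, hs, rfl⟩)
      · exact Or.inl h
      · by_cases h : p - s ∈ pd A
        · exact Or.inl h
        · exact Or.inr ⟨s, ⟨hs, h⟩, rfl⟩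
    · rintro (h | ⟨s, ⟨hs, -⟩, rfl⟩)
      · exact Or.inl h
      · exact Or.inr ⟨s, hs, rfl⟩
  rw [h1, card_union_of_disjoint, card_image_of_injOn]
  · have h2 := card_filter_add_card_filter_not (s := A) (fun s => p - s ∈ pd A)
    unfold G
    omega
  · intro a ha b hb h
    simp only [coe_filter, Set.mem_ofPred_eq] at ha hb
    have h1 := hp a ha.1
    have h2 := hp b hb.1
    simp only at h
    omega
  · rw [disjoint_left]
    intro d hd hd'
    simp only [mem_image, mem_filter] at hd'
    obtain ⟨s, ⟨-, hs⟩, rfl⟩ := hd'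
    exact hs hd

/-- The loss: the number of pairs minus the number of positive differences. -/
def loss (A : Finset ℕ) : ℕ := A.card.choose 2 - (pd A).card

lemma choose_two_succ (n : ℕ) : (n + 1).choose 2 = n.choose 2 + n := by
  rw [Nat.choose_succ_succ' n 1, Nat.choose_one_right, add_comm]

lemma card_pd_le (A : Finset ℕ) : (pd A).card ≤ A.card.choose 2 := by
  induction A using Finset.induction_on_max with
  | empty => simp [pd]
  | insert p A hp ih =>
    have h1 := card_pd_insert hp
    have hpA : p ∉ A := fun h => lt_irrefl _ (hp p h)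
    have h4 := choose_two_succ A.card
    rw [card_insert_of_notMem hpA]
    omega

lemma card_pd_add_loss (A : Finset ℕ) : (pd A).card + loss A = A.card.choose 2 := by
  have := card_pd_le A
  unfold loss; omega

lemma loss_insert {p : ℕ} {A : Finset ℕ} (hp : ∀ x ∈ A, x < p) :
    loss (insert p A) = loss A + (G p A).card := by
  have h1 := card_pd_insert hp
  have h2 := card_pd_add_loss A
  have h3 := card_pd_add_loss (insert p A)
  have hpA : p ∉ A := fun h => lt_irrefl _ (hp p h)
  rw [card_insert_of_notMem hpA, choose_two_succ] at h3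
  omega

/-- Removing one element loses at most `|A| - 1` differences. -/
lemma card_pd_insert_le (x : ℕ) (A : Finset ℕ) :
    (pd (insert x A)).card ≤ (pd A).card + A.card := by
  have h : pd (insert x A) ⊆ pd A ∪ A.image (fun s => (x - s) + (s - x)) := by
    intro d hd
    simp only [mem_union, mem_pd, mem_image, mem_insert] at hd ⊢
    obtain ⟨h0, y, hy, hyd⟩ := hd
    rcases hy with rfl | hy
    · rcases hyd with hyd | hyd
      · omega
      · right; exact ⟨_, hyd, by omega⟩
    · rcases hyd with hyd | hyd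
      · right; exact ⟨y, hy, by omega⟩
      · left; exact ⟨h0, y, hy, hyd⟩
  calc (pd (insert x A)).card ≤ _ := card_le_card h
    _ ≤ (pd A).card + (A.image (fun s => (x - s) + (s - x))).card := card_union_le _ _
    _ ≤ _ := by
      have := card_image_le (s := A) (f := fun s => (x - s) + (s - x))
      omega

lemma loss_le_insert {x : ℕ} {A : Finset ℕ} (hx : x ∉ A) : loss A ≤ loss (insert x A) := by
  have h1 := card_pd_insert_le x A
  have h2 := card_pd_add_loss A
  have h3 := card_pd_add_loss (insert x A)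
  rw [card_insert_of_notMem hx, choose_two_succ] at h3
  omega

lemma loss_le_union (A C : Finset ℕ) : loss A ≤ loss (A ∪ C) := by
  induction C using Finset.induction_on with
  | empty => rw [union_empty]
  | insert x C hx ih =>
    rw [union_insert]
    by_cases h : x ∈ A ∪ C
    · rw [insert_eq_of_mem h]; exact ih
    · exact ih.trans (loss_le_insert h)

lemma loss_mono {A B : Finset ℕ} (h : A ⊆ B) : loss A ≤ loss B := by
  have := loss_le_union A B
  rwa [union_eq_right.mpr h] at this

lemma card_le_card_pd {A : Finset ℕ} : A.card ≤ (pd A).card + 1 := by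
  rcases A.eq_empty_or_nonempty with rfl | hA
  · simp
  · have h : (A.erase (A.min' hA)).image (fun s => s - A.min' hA) ⊆ pd A := by
      intro d hd
      rw [mem_image] at hd
      obtain ⟨s, hs, rfl⟩ := hd
      rw [mem_erase] at hs
      have h1 := A.min'_le s hs.2
      rw [mem_pd]
      refine ⟨by omega, _, A.min'_mem hA, ?_⟩
      have : A.min' hA + (s - A.min' hA) = s := by omega
      rw [this]; exact hs.2
    have h2 := card_le_card h
    rw [card_image_of_injOn, card_erase_of_mem (A.min'_mem hA)] at h2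
    · omega
    · intro a ha b hb hab
      have h1 := A.min'_le a (mem_of_mem_erase ha)
      have h2 := A.min'_le b (mem_of_mem_erase hb)
      simp only at hab
      omega

end Pool.Agent.Lib.MP_d8403e_co
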