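import Pool.Agent.Lib.MP_d8403e_co.Count

/-!
# Large sets with few differences have large rank
-/

namespace Pool.Agent.Lib.MP_d8403e_co

open Finset

lemma exists_mem_ne_zero {A : Finset ℕ} (h : rk A ≠ 0) : ∃ v ∈ V A, ∃ x ∈ A, v x ≠ 0 := by
  obtain ⟨v, hv, hv0⟩ := exists_quad_ne_zero h
  obtain ⟨x, hx⟩ := Function.ne_iff.mp hv0
  refine ⟨v, quads_subset_V A hv, x, ?_, hx⟩
  by_contra hxA
  exact hx (V_vanish (quads_subset_V A hv) hxA)

lemma big_sets (R q : ℕ) (A : Finset ℕ) (h1 : R ≤ A.card) (h2 : R + rk A ≤ A.card + q) :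
    R.choose 2 ≤ (pd A).card + q * (q + 1) := by
  induction hn : A.card generalizing A with
  | zero =>
    have : R = 0 := by omega
    subst this
    simp
  | succ n ih =>
    rcases Nat.lt_or_ge R A.card with hlt | hge
    · by_cases h0 : rk A = 0
      · have h3 := loss_le A
        have h4 := card_pd_add_loss A
        rw [h0] at h3
        have h5 := Nat.choose_le_choose 2 h1
        omega
      · obtain ⟨v, hv, x, hx, hvx⟩ := exists_mem_ne_zero h0
        have h3 := rk_erase_lt hv hvx
        have h4 := card_erase_of_mem hx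
        have h5 := card_le_card (pd_mono (erase_subset x A))
        have h6 := ih (A.erase x) (by omega) (by omega) (by omega)
        omega
    · have h3 := loss_le A
      have h4 := card_pd_add_loss A
      have h5 : rk A ≤ q := by omega
      have h6 : rk A * (rk A + 1) ≤ q * (q + 1) := Nat.mul_le_mul h5 (by omega)
      have h7 : A.card = R := by omega
      rw [h7] at h4
      omega

lemma count_big (R q d : ℕ) (hq : q + 1 ≤ R) (hd : d + q * (q + 1) < R.choose 2) :
    ∃ C : ℕ, ∀ n : ℕ, 0 < n →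
      ((range n).powerset.filter (fun A => R ≤ A.card ∧ (pd A).card = d)).card
        ≤ C * n ^ (R - q - 1) := by
  choose C hC using fun p : ℕ => card_rank_le p (p - (R - q - 1))
  refine ⟨∑ p ∈ Icc R (d + 1), C p, fun n hn => ?_⟩
  have hsub : (range n).powerset.filter (fun A => R ≤ A.card ∧ (pd A).card = d) ⊆
      (Icc R (d + 1)).biUnion (fun p => ((range n).powersetCard p).filter
        (fun A => p - (R - q - 1) ≤ rk A)) := by
    intro A hA
    rw [mem_filter, mem_powerset] at hA
    obtain ⟨hAn, hR, hpd⟩ := hA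
    rw [mem_biUnion]
    have h1 := card_le_card_pd (A := A)
    refine ⟨A.card, mem_Icc.mpr ⟨hR, by omega⟩, ?_⟩
    rw [mem_filter, mem_powersetCard]
    refine ⟨⟨hAn, rfl⟩, ?_⟩
    by_contra hlt
    have h2 := big_sets R q A hR (by omega)
    omega
  refine (card_le_card hsub).trans (card_biUnion_le.trans ?_)
  rw [sum_mul]
  apply sum_le_sum
  intro p hp
  rw [mem_Icc] at hp
  have h1 := hC p n hn
  have h2 : p - (p - (R - q - 1)) = R - q - 1 := by omega
  rw [h2] at h1
  exact h1

/-- A set symmetric about a point, without fixed point, has a large loss. -/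
lemma loss_symm (m : ℕ) : ∀ (T : Finset ℕ) (σ : ℕ), T.card = 2 * m →
    (∀ x ∈ T, x ≤ σ ∧ σ - x ∈ T ∧ x ≠ σ - x) → m * (m - 1) ≤ loss T := by
  induction m with
  | zero => intro T σ _ _; simp
  | succ m ih =>
    intro T σ hc hT
    have hne : T.Nonempty := card_pos.mp (by omega)
    obtain ⟨p, hpT, hmax⟩ : ∃ p ∈ T, ∀ x ∈ T, x ≤ p := ⟨T.max' hne, T.max'_mem hne,
      fun x hx => T.le_max' x hx⟩
    obtain ⟨h1, h2, h3⟩ := hT p hpT
    have hp : ∀ x ∈ T.erase p, x < p := by
      intro x hx
      rw [mem_erase] at hx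
      exact lt_of_le_of_ne (hmax x hx.2) hx.1
    have hins : insert p (T.erase p) = T := insert_erase hpT
    have huA : σ - p ∈ T.erase p := mem_erase.mpr ⟨h3.symm, h2⟩
    have hG : (T.erase p).erase (σ - p) ⊆ G p (T.erase p) := by
      intro s hs
      rw [mem_erase] at hs
      obtain ⟨hs1, hs2⟩ := hs
      have hs3 := (mem_erase.mp hs2)
      obtain ⟨k1, k2, k3⟩ := hT s hs3.2
      refine (mem_G hp).mpr ⟨hs2, σ - s, mem_erase.mpr ⟨by omega, k2⟩, σ - p, huA, by omega⟩
    have hcT : ((T.erase p).erase (σ - p)).card = 2 * m := by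
      rw [card_erase_of_mem huA, card_erase_of_mem hpT]; omega
    have hG' := card_le_card hG
    have h4 := ih ((T.erase p).erase (σ - p)) σ hcT (by
      intro x hx
      simp only [mem_erase] at hx ⊢
      obtain ⟨k1, k2, k3⟩ := hT x hx.2.2
      exact ⟨k1, ⟨by omega, by omega, k2⟩, k3⟩)
    have h5 := loss_mono (erase_subset (σ - p) (T.erase p))
    have h6 := loss_insert hp
    rw [hins] at h6
    rcases m with _ | m
    · simp
    · simp only [Nat.add_sub_cancel] at h4 ⊢
      nlinarith

lemma card_diffSet_iff {S : Finset ℕ} {d : ℕ} (hd : 0 < d) :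
    (diffSet S).card = 2 * d + 1 ↔ (pd S).card = d := by
  rcases S.eq_empty_or_nonempty with rfl | hS
  · simp [diffSet, pd]
    omega
  · rw [card_diffSet hS]; omega

lemma count_eq (n : ℕ) {d : ℕ} (hd : 0 < d) :
    count n (2 * d + 1) = ((range n).powerset.filter (fun A => (pd A).card = d)).card := by
  unfold count
  congr 1
  apply filter_congr
  intro S _
  exact card_diffSet_iff hd

lemma count_even (n : ℕ) {m : ℕ} (hm : m % 2 = 0) (h0 : 0 < m) : count n m = 0 := by
  unfold count
  rw [card_eq_zero, filter_eq_empty_iff]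
  intro S _ h
  rcases S.eq_empty_or_nonempty with rfl | hS
  · rw [diffSet_empty, card_empty] at h; omega
  · rw [card_diffSet hS] at h; omega

lemma pd_range (m : ℕ) : pd (range (m + 1)) = Icc 1 m := by
  ext d
  rw [mem_pd, mem_Icc]
  constructor
  · rintro ⟨h0, y, hy, hyd⟩
    rw [mem_range] at hy hyd
    omega
  · rintro ⟨h1, h2⟩
    exact ⟨by omega, 0, by simp, by rw [mem_range]; omega⟩

lemma count_pos {n d : ℕ} (hd : 0 < d) (hn : d < n) : 0 < count n (2 * d + 1) := by
  rw [count_eq n hd, card_pos]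
  refine ⟨range (d + 1), ?_⟩
  rw [mem_filter, mem_powerset, pd_range]
  refine ⟨?_, by simp⟩
  intro x hx
  rw [mem_range] at hx ⊢
  omega

end Pool.Agent.Lib.MP_d8403e_co
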