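import Pool.Agent.Lib.MP_d8403e_co.Rank

/-!
# Counting sets of given size and large rank
-/

namespace Pool.Agent.Lib.MP_d8403e_co

open Finset

/-- Points of a box in the common kernel of `q` independent linear forms. -/
lemma kernel_count {P q : ℕ} (W : Fin q → Fin P → ℚ) (hW : LinearIndependent ℚ W) {n : ℕ}
    (hn : 0 < n) (S : Finset (Fin P → Fin n))
    (hS : ∀ a ∈ S, ∀ i, ∑ k, W i k * ((a k : ℕ) : ℚ) = 0) : S.card ≤ n ^ (P - q) := by
  classical
  let v : Fin q ⊕ Fin P → (Fin P → ℚ) := Sum.elim W (fun k => Pi.single k 1)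
  have hs : LinearIndepOn ℚ v (Set.range Sum.inl) := by
    have : LinearIndependent ℚ (v ∘ (Sum.inl : Fin q → Fin q ⊕ Fin P)) := hW
    exact (linearIndepOn_range_iff Sum.inl_injective v).mpr this
  obtain ⟨b, -, hsb, htb, hli⟩ := exists_linearIndepOn_extension hs (Set.subset_univ _)
  -- the coordinates that are used
  let J : Finset (Fin P) := univ.filter (fun k => Sum.inr k ∈ b)
  have hJ : q + J.card ≤ P := by
    have hfin : (univ.image (Sum.inl : Fin q → Fin q ⊕ Fin P) ∪ J.image Sum.inr :
        Finset (Fin q ⊕ Fin P)).card = q + J.card := by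
      rw [card_union_of_disjoint, card_image_of_injective _ Sum.inl_injective,
        card_image_of_injective _ Sum.inr_injective, card_univ, Fintype.card_fin]
      rw [disjoint_left]
      intro x hx hx'
      obtain ⟨i, -, rfl⟩ := mem_image.mp hx
      obtain ⟨j, -, h⟩ := mem_image.mp hx'
      exact absurd h (by simp)
    have hsub : ((univ.image (Sum.inl : Fin q → Fin q ⊕ Fin P) ∪ J.image Sum.inr :
        Finset (Fin q ⊕ Fin P)) : Set (Fin q ⊕ Fin P)) ⊆ b := by
      intro x hx
      rw [mem_coe, mem_union, mem_image, mem_image] at hx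
      rcases hx with ⟨i, -, rfl⟩ | ⟨j, hj, rfl⟩
      · exact hsb ⟨i, rfl⟩
      · exact (mem_filter.mp hj).2
    have h1 := hli.mono hsub
    have h2 := LinearIndependent.fintype_card_le_finrank h1
    rw [Module.finrank_fin_fun] at h2
    simp only [Finset.coe_sort_coe, Fintype.card_coe] at h2
    omega
  have hinj : Set.InjOn (fun (a : Fin P → Fin n) (k : J) => a k) (S : Set (Fin P → Fin n)) := by
    intro a ha a' ha' h
    have key : ∀ w ∈ Submodule.span ℚ (v '' b),
        ∑ k, w k * (((a k : ℕ) : ℚ) - ((a' k : ℕ) : ℚ)) = 0 := by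
      intro w hw
      induction hw using Submodule.span_induction with
      | mem w hw =>
        obtain ⟨x, hx, rfl⟩ := hw
        rcases x with i | j
        · have h1 := hS a ha i
          have h2 := hS a' ha' i
          have : ∑ k, v (Sum.inl i) k * (((a k : ℕ) : ℚ) - ((a' k : ℕ) : ℚ)) =
              ∑ k, W i k * ((a k : ℕ) : ℚ) - ∑ k, W i k * ((a' k : ℕ) : ℚ) := by
            rw [← sum_sub_distrib]
            apply sum_congr rfl
            intro k _
            simp only [v, Sum.elim_inl]
            ring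
          rw [this, h1, h2, sub_zero]
        · have hj : j ∈ J := mem_filter.mpr ⟨mem_univ j, hx⟩
          have h1 := congrFun h ⟨j, hj⟩
          simp only at h1
          simp only [v, Sum.elim_inr]
          rw [Finset.sum_eq_single j]
          · rw [h1]; simp
          · intro k _ hk
            rw [Pi.single_eq_of_ne hk, zero_mul]
          · intro hj'; exact absurd (mem_univ j) hj'
      | zero => simp
      | add x y _ _ hx hy =>
        simp only [Pi.add_apply, add_mul, sum_add_distrib, hx, hy, add_zero]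
      | smul c x _ hx =>
        simp only [Pi.smul_apply, smul_eq_mul, mul_assoc, ← mul_sum, hx, mul_zero]
    ext k
    have h1 := key (v (Sum.inr k)) (htb ⟨Sum.inr k, Set.mem_univ _, rfl⟩)
    simp only [v, Sum.elim_inr] at h1
    rw [Finset.sum_eq_single k] at h1
    · rw [Pi.single_eq_same, one_mul, sub_eq_zero] at h1
      exact_mod_cast h1
    · intro l _ hl
      rw [Pi.single_eq_of_ne hl, zero_mul]
    · intro hj'; exact absurd (mem_univ k) hj'
  calc S.card = (S.image (fun (a : Fin P → Fin n) (k : J) => a k)).card :=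
        (card_image_of_injOn hinj).symm
    _ ≤ (univ : Finset (J → Fin n)).card := card_le_card (subset_univ _)
    _ = n ^ J.card := by simp
    _ ≤ n ^ (P - q) := Nat.pow_le_pow_right hn (by omega)

/-- Index version of `qv`. -/
def qvF {P : ℕ} (a d b c : Fin P) : Fin P → ℚ := fun x =>
  (if x = a then 1 else 0) + (if x = d then 1 else 0) - (if x = b then 1 else 0)
    - (if x = c then 1 else 0)

lemma exists_indices {A : Finset ℕ} {P q : ℕ} (hA : A.card = P) (hq : q ≤ rk A) :
    ∃ idx : Fin q → Fin P × Fin P × Fin P × Fin P,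
      LinearIndependent ℚ (fun i => qvF (idx i).1 (idx i).2.1 (idx i).2.2.1 (idx i).2.2.2) ∧
      ∀ i, ∑ k, qvF (idx i).1 (idx i).2.1 (idx i).2.2.1 (idx i).2.2.2 k *
        ((A.orderEmbOfFin hA k : ℕ) : ℚ) = 0 := by
  classical
  obtain ⟨b, hb, hspan, hli⟩ := exists_linearIndependent ℚ (quads A)
  have hfin : b.Finite := (quads_finite A).subset hb
  have : Fintype b := hfin.fintype
  have hcard : Fintype.card b = rk A := by
    have h1 := finrank_span_eq_card hli
    rw [Subtype.range_coe, hspan] at h1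
    exact h1.symm
  obtain ⟨f⟩ : Nonempty (Fin q ↪ b) := by
    apply Function.Embedding.nonempty_of_card_le
    rw [Fintype.card_fin]; omega
  have hw : LinearIndependent ℚ (fun i => ((f i : b) : ℕ → ℚ)) := hli.comp f f.injective
  set e := A.orderEmbOfFin hA with he
  have hsurj : ∀ x ∈ A, ∃ k, e k = x := by
    intro x hx
    have h1 := range_orderEmbOfFin A hA
    have : x ∈ Set.range e := by rw [he, h1]; exact hx
    exact this
  have hidx : ∀ i, ∃ t : Fin P × Fin P × Fin P × Fin P,
      e t.1 + e t.2.1 = e t.2.2.1 + e t.2.2.2 ∧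
      ((f i : b) : ℕ → ℚ) = qv (e t.1) (e t.2.1) (e t.2.2.1) (e t.2.2.2) := by
    intro i
    obtain ⟨x, hx, y, hy, z, hz, w, hw, h1, h2⟩ := hb (f i).2
    obtain ⟨x', rfl⟩ := hsurj x hx
    obtain ⟨y', rfl⟩ := hsurj y hy
    obtain ⟨z', rfl⟩ := hsurj z hz
    obtain ⟨w', rfl⟩ := hsurj w hw
    exact ⟨(x', y', z', w'), h1, h2⟩
  choose idx h1 h2 using hidx
  refine ⟨idx, ?_, ?_⟩
  · let Φ : (Fin P → ℚ) →ₗ[ℚ] (ℕ → ℚ) :=
      { toFun := fun g x => ∑ k, g k * ind (e k) x
        map_add' := by
          intro g h; ext x; simp [add_mul, sum_add_distrib]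
        map_smul' := by
          intro c g; ext x; simp [mul_sum, mul_assoc] }
    apply LinearIndependent.of_comp Φ
    have : Φ ∘ (fun i => qvF (idx i).1 (idx i).2.1 (idx i).2.2.1 (idx i).2.2.2) =
        fun i => ((f i : b) : ℕ → ℚ) := by
      funext i
      rw [h2 i]
      ext x
      simp [Φ, qvF, qv, add_mul, sub_mul, sum_add_distrib, sum_sub_distrib]
    rw [this]
    exact hw
  · intro i
    have h3 := h1 i
    simp only [qvF, add_mul, sub_mul, sum_add_distrib, sum_sub_distrib, ite_mul, one_mul, zero_mul,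
      sum_ite_eq', mem_univ, if_true]
    have h4 : ((e (idx i).1 : ℕ) : ℚ) + ((e (idx i).2.1 : ℕ) : ℚ) =
        ((e (idx i).2.2.1 : ℕ) : ℚ) + ((e (idx i).2.2.2 : ℕ) : ℚ) := by exact_mod_cast h3
    linarith

/-- There are at most `C n ^ (P - q)` subsets of `[n]` of size `P` and rank at least `q`. -/
theorem card_rank_le (P q : ℕ) : ∃ C : ℕ, ∀ n : ℕ, 0 < n →
    (((range n).powersetCard P).filter (fun A => q ≤ rk A)).card ≤ C * n ^ (P - q) := by
  classical
  refine ⟨Fintype.card (Fin q → Fin P × Fin P × Fin P × Fin P), fun n hn => ?_⟩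
  let I : Finset (Fin q → Fin P × Fin P × Fin P × Fin P) := univ.filter (fun idx =>
    LinearIndependent ℚ (fun i => qvF (idx i).1 (idx i).2.1 (idx i).2.2.1 (idx i).2.2.2))
  let K : (Fin q → Fin P × Fin P × Fin P × Fin P) → Finset (Fin P → Fin n) := fun idx =>
    univ.filter (fun a => ∀ i, ∑ k, qvF (idx i).1 (idx i).2.1 (idx i).2.2.1 (idx i).2.2.2 k *
        ((a k : ℕ) : ℚ) = 0)
  have hsub : ((range n).powersetCard P).filter (fun A => q ≤ rk A) ⊆
      I.biUnion (fun idx => (K idx).image (fun a => univ.image (fun k => (a k : ℕ)))) := by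
    intro A hA
    rw [mem_filter, mem_powersetCard] at hA
    obtain ⟨⟨hAn, hAP⟩, hq⟩ := hA
    obtain ⟨idx, h1, h2⟩ := exists_indices hAP hq
    rw [mem_biUnion]
    refine ⟨idx, mem_filter.mpr ⟨mem_univ _, h1⟩, ?_⟩
    rw [mem_image]
    have hlt : ∀ k, A.orderEmbOfFin hAP k < n := fun k =>
      mem_range.mp (hAn (orderEmbOfFin_mem A hAP k))
    refine ⟨fun k => ⟨A.orderEmbOfFin hAP k, hlt k⟩, ?_, ?_⟩
    · rw [mem_filter]
      exact ⟨mem_univ _, h2⟩
    · simp only
      ext x
      rw [mem_image]
      constructor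
      · rintro ⟨k, -, rfl⟩
        exact orderEmbOfFin_mem A hAP k
      · intro hx
        have h3 := range_orderEmbOfFin A hAP
        have : x ∈ Set.range (A.orderEmbOfFin hAP) := by rw [h3]; exact hx
        obtain ⟨k, hk⟩ := this
        exact ⟨k, mem_univ _, hk⟩
  calc _ ≤ _ := card_le_card hsub
    _ ≤ ∑ idx ∈ I, ((K idx).image (fun a => univ.image (fun k => (a k : ℕ)))).card :=
        card_biUnion_le
    _ ≤ ∑ _idx ∈ I, n ^ (P - q) := by
        apply sum_le_sum
        intro idx hidx
        refine card_image_le.trans ?_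
        exact kernel_count _ (mem_filter.mp hidx).2 hn _ (fun a ha => (mem_filter.mp ha).2)
    _ = I.card * n ^ (P - q) := by rw [sum_const, smul_eq_mul]
    _ ≤ _ := by
        apply Nat.mul_le_mul_right
        exact card_le_univ I

end Pool.Agent.Lib.MP_d8403e_co
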