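import Mathlib

/-!
# Definitions for MP_d8403e_co (divots in the distribution of the size of the difference set)
-/

namespace Pool.Agent.Lib.MP_d8403e_co

/-- The difference set `S - S` of a finite set `S` of natural numbers, as a finite set of
integers. -/
def diffSet (S : Finset ℕ) : Finset ℤ :=
  (S ×ˢ S).image (fun p => (p.1 : ℤ) - (p.2 : ℤ))

/-- The number of subsets `S` of `[n] = {0, 1, ..., n - 1}` with `|S - S| = m`. -/
def count (n m : ℕ) : ℕ :=
  ((Finset.range n).powerset.filter (fun S => (diffSet S).card = m)).card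

/-- `P_{n,H}(m)`: the probability that a uniformly random subset `S` of `[n]` has
`|S - S| = m`. -/
noncomputable def prob (n m : ℕ) : ℝ := (count n m : ℝ) / 2 ^ n

/-- The sequence `Q` has a divot at `i`: `Q i` is positive and smaller than the values at the
nearest indices below and above `i` where `Q` does not vanish (both must exist). -/
def HasDivot (Q : ℕ → ℝ) (i : ℕ) : Prop :=
  0 < Q i ∧
    (∃ j, j < i ∧ Q j ≠ 0 ∧ (∀ l, j < l → l < i → Q l = 0) ∧ Q i < Q j) ∧
    (∃ j, i < j ∧ Q j ≠ 0 ∧ (∀ l, i < l → l < j → Q l = 0) ∧ Q i < Q j)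

end Pool.Agent.Lib.MP_d8403e_co
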