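import Pool.Agent.Lib.MP_d8403e_co.ParCount

/-!
# Double counting of pairs (parallelogram, superset)
-/

namespace Pool.Agent.Lib.MP_d8403e_co

open Finset

lemma card_supersets {n P : ℕ} {T : Finset ℕ} (hT : T ⊆ range n) (hc : T.card = 4) (hP : 4 ≤ P) :
    (n - 4).choose (P - 4) ≤ (((range n).powersetCard P).filter (fun S => T ⊆ S)).card := by
  have h1 : ((range n \ T).powersetCard (P - 4)).card = (n - 4).choose (P - 4) := by
    rw [card_powersetCard, card_sdiff_of_subset hT, card_range, hc]
  rw [← h1]
  apply card_le_card_of_injOn (fun U => U ∪ T)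
  · intro U hU
    rw [mem_coe, mem_powersetCard] at hU
    rw [mem_coe, mem_filter, mem_powersetCard]
    have hd : Disjoint U T := (subset_sdiff.mp hU.1).2
    refine ⟨⟨union_subset (hU.1.trans sdiff_subset) hT, ?_⟩, subset_union_right⟩
    rw [card_union_of_disjoint hd, hU.2, hc]
    omega
  · intro U hU U' hU' h
    rw [mem_coe, mem_powersetCard] at hU hU'
    have hd : Disjoint U T := (subset_sdiff.mp hU.1).2
    have hd' : Disjoint U' T := (subset_sdiff.mp hU'.1).2
    simp only at h
    have e1 : (U ∪ T) \ T = U := union_sdiff_cancel_right hd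
    have e2 : (U' ∪ T) \ T = U' := union_sdiff_cancel_right hd'
    rw [← e1, ← e2, h]

lemma triples_in_le {n P : ℕ} {S : Finset ℕ} (hS : S.card = P) :
    ((triples n).filter (fun t => para t ⊆ S)).card ≤ P ^ 3 := by
  have hsub : (triples n).filter (fun t => para t ⊆ S) ⊆ S ×ˢ S ×ˢ S := by
    rintro ⟨i, j, k⟩ ht
    rw [mem_filter] at ht
    rw [mem_product, mem_product]
    exact ⟨ht.2 (by simp [para]), ht.2 (by simp [para]), ht.2 (by simp [para])⟩
  have := card_le_card hsub
  rw [card_product, card_product, hS] at this
  calc _ ≤ _ := this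
    _ = P ^ 3 := by ring

lemma double_count (n P : ℕ) (hP : 4 ≤ P) :
    (triples n).card * (n - 4).choose (P - 4) ≤
      2 * (((range n).powersetCard P).filter (fun S => loss S = 2)).card +
      P ^ 3 * (((range n).powersetCard P).filter (fun S => 2 ≤ rk S)).card := by
  classical
  have h1 : (triples n).card * (n - 4).choose (P - 4) ≤
      ∑ t ∈ triples n, (((range n).powersetCard P).filter (fun S => para t ⊆ S)).card := by
    rw [← smul_eq_mul, ← sum_const]
    apply sum_le_sum
    rintro ⟨i, j, k⟩ ht
    have ht' := mem_triples.mp ht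
    exact card_supersets (para_subset ht) (card_para ht'.1 ht'.2.1 ht'.2.2.2) hP
  have h2 : ∑ t ∈ triples n, (((range n).powersetCard P).filter (fun S => para t ⊆ S)).card =
      ∑ S ∈ (range n).powersetCard P, ((triples n).filter (fun t => para t ⊆ S)).card := by
    simp only [card_filter]
    rw [sum_comm]
  have h3 : ∀ S ∈ (range n).powersetCard P, ((triples n).filter (fun t => para t ⊆ S)).card ≤
      2 * (if loss S = 2 then 1 else 0) + P ^ 3 * (if 2 ≤ rk S then 1 else 0) := by
    intro S hS
    rw [mem_powersetCard] at hS
    by_cases hr : 2 ≤ rk S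
    · rw [if_pos hr]
      have := triples_in_le (n := n) hS.2
      omega
    · rw [if_neg hr]
      rcases ((triples n).filter (fun t => para t ⊆ S)).eq_empty_or_nonempty with he | ⟨⟨i, j, k⟩, ht⟩
      · rw [he]; simp
      · rw [mem_filter, mem_triples] at ht
        have hl : loss S = 2 := by
          have h5 := loss_le S
          have h6 : rk S * (rk S + 1) ≤ 1 * (1 + 1) := Nat.mul_le_mul (by omega) (by omega)
          have h7 : 2 ≤ loss S := by
            have hi : i ∈ S := ht.2 (by simp [para])
            have hk : k ∈ S := ht.2 (by simp [para])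
            have hj : j ∈ S := ht.2 (by simp [para])
            have hl : i + k - j ∈ S := ht.2 (by simp [para])
            exact two_le_loss hi hj hl hk (by omega) (by omega) (by omega) (by omega) (by omega)
          omega
        rw [if_pos hl]
        have := triples_le_two (S := S) (by omega) n
        omega
  calc _ ≤ _ := h1
    _ = _ := h2
    _ ≤ ∑ S ∈ (range n).powersetCard P,
        (2 * (if loss S = 2 then 1 else 0) + P ^ 3 * (if 2 ≤ rk S then 1 else 0)) :=
        sum_le_sum h3
    _ = _ := by
        rw [sum_add_distrib, ← mul_sum, ← mul_sum, card_filter, card_filter]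

end Pool.Agent.Lib.MP_d8403e_co
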