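import Pool.Agent.Lib.MP_d8403e_co.Extremal

/-!
# Sets of rank at most three do not have loss eleven
-/

namespace Pool.Agent.Lib.MP_d8403e_co

open Finset

lemma eq_of_ind_pos {a x : ℕ} (h : 0 < ind a x) : x = a := by
  by_contra hne
  rw [ind_of_ne hne] at h
  exact lt_irrefl _ h

/-- The case of a smaller set of loss six and five new coincidences. -/
lemma case56 {p : ℕ} {A : Finset ℕ} (hp : ∀ x ∈ A, x < p) (hr : rk (insert p A) ≤ rk A + 1)
    (hG : (G p A).card = 5) {T : Finset ℕ} {σ : ℕ} (hTA : T ⊆ A) (hT6 : T.card = 6)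
    (hT : ∀ x ∈ T, x ≤ σ ∧ σ - x ∈ T ∧ x ≠ σ - x)
    (hV1 : ∀ v ∈ V A, ∀ x ∈ T, v x = v (σ - x)) (hV2 : ∀ v ∈ V A, ∀ x, x ∉ T → v x = 0) :
    False := by
  have hpA : p ∉ A := fun h => lt_irrefl _ (hp p h)
  obtain ⟨-, t, u, -, -, htu, -⟩ := star hp
  obtain ⟨w, hw, hw1⟩ := exists_quad_of_G hp (card_pos.mp (by omega))
  have hmem : ∀ l ∈ G p A, qv p (u l) l (t l) ∈ V (insert p A) := by
    intro l hl
    obtain ⟨h1, h2, h3, h4⟩ := htu l hl
    exact qv_mem_V (mem_insert_self p A) (mem_insert_of_mem h3) (mem_insert_of_mem h1)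
      (mem_insert_of_mem h2) h4
  have hval : ∀ l ∈ G p A, qv p (u l) l (t l) p = 1 := by
    intro l hl
    obtain ⟨h1, h2, h3, h4⟩ := htu l hl
    simp only [qv, ind_self, ind_of_ne (hp _ h1).ne', ind_of_ne (hp _ h2).ne',
      ind_of_ne (hp _ h3).ne']
    norm_num
  have hD : ∀ s ∈ G p A, ∀ s' ∈ G p A, qv p (u s') s' (t s') - qv p (u s) s (t s) ∈ V A := by
    intro s hs s' hs'
    refine mem_V_of_eval_zero hpA hr hw (by rw [hw1]; norm_num)
      (Submodule.sub_mem _ (hmem s' hs') (hmem s hs)) ?_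
    rw [Pi.sub_apply, hval s hs, hval s' hs', sub_self]
  -- facts about the members of `G`
  have hlt : ∀ s ∈ G p A, u s < s ∧ u s < t s ∧ s < p ∧ t s < p := by
    intro s hs
    obtain ⟨h1, h2, h3, h4⟩ := htu s hs
    have h5 := hp _ h1
    have h6 := hp _ h2
    omega
  have hkey : ∀ s ∈ G p A, s ∉ T → ∀ s' ∈ G p A, s' ≠ s → t s' = s := by
    intro s hs hsT s' hs' hne
    have h := hV2 _ (hD s hs s' hs') s hsT
    obtain ⟨a1, a2, a3, a4⟩ := hlt s hs
    have n1 : s ≠ p := by omega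
    have n2 : s ≠ u s := by omega
    simp only [Pi.sub_apply, qv, ind_self, ind_of_ne n1, ind_of_ne n2, ind_of_ne hne.symm] at h
    have g1 := ind_nonneg (u s') s
    have g2 := ind_nonneg (t s) s
    have g3 : 0 < ind (t s') s := by linarith
    exact (eq_of_ind_pos g3).symm
  have hGT : G p A ⊆ T := by
    intro s hs
    by_contra hsT
    have hc : 2 < ((G p A).erase s).card := by rw [card_erase_of_mem hs]; omega
    have hin : ∀ s' ∈ G p A, s' ≠ s → s' ∈ T := by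
      intro s' hs' hne
      by_contra hs'T
      have hc2 : 0 < (((G p A).erase s).erase s').card := by
        rw [card_erase_of_mem (mem_erase.mpr ⟨hne, hs'⟩)]; omega
      obtain ⟨s'', hs''⟩ := card_pos.mp hc2
      simp only [mem_erase] at hs''
      have e1 := hkey s hs hsT s'' hs''.2.2 hs''.2.1
      have e2 := hkey s' hs' hs'T s'' hs''.2.2 hs''.1
      exact hne (e2.symm.trans e1)
    have hu : ∀ s₁ ∈ G p A, s₁ ≠ s → ∀ s₂ ∈ G p A, s₂ ≠ s → s₁ ≠ s₂ → u s₂ = σ - s₁ := by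
      intro s₁ h1 n1 s₂ h2 n2 hne
      have hT1 := hin s₁ h1 n1
      have h := hV1 _ (hD s₂ h2 s₁ h1) s₁ hT1
      obtain ⟨a1, a2, a3, a4⟩ := hlt s₁ h1
      obtain ⟨b1, b2, b3⟩ := hT s₁ hT1
      have m1 : s₁ ≠ p := by omega
      have m2 : s₁ ≠ u s₁ := by omega
      simp only [Pi.sub_apply, qv, ind_self, ind_of_ne m1, ind_of_ne m2, ind_of_ne hne,
        hkey s hs hsT s₁ h1 n1, hkey s hs hsT s₂ h2 n2, ind_of_ne n1, ind_of_ne b3.symm] at h
      have g1 := ind_nonneg (u s₂) s₁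
      have g2 := ind_nonneg (u s₁) (σ - s₁)
      have g4 := ind_nonneg s₂ (σ - s₁)
      have g3 : 0 < ind (u s₂) (σ - s₁) := by linarith
      exact (eq_of_ind_pos g3).symm
    obtain ⟨s₁, s₂, s₃, h1, h2, h3, n12, n13, n23⟩ := two_lt_card_iff.mp hc
    simp only [mem_erase] at h1 h2 h3
    have e1 := hu s₁ h1.2 h1.1 s₂ h2.2 h2.1 n12
    have e2 := hu s₃ h3.2 h3.1 s₂ h2.2 h2.1 n23.symm
    have b1 := (hT s₁ (hin s₁ h1.2 h1.1)).1
    have b3 := (hT s₃ (hin s₃ h3.2 h3.1)).1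
    omega
  have hex : ∃ x ∈ G p A, σ - x ∈ G p A := by
    by_contra hno
    push Not at hno
    have h1 : (G p A).image (fun x => σ - x) ⊆ T \ G p A := by
      intro y hy
      obtain ⟨x, hx, rfl⟩ := mem_image.mp hy
      exact mem_sdiff.mpr ⟨(hT x (hGT hx)).2.1, hno x hx⟩
    have h2 := card_le_card h1
    rw [card_image_of_injOn, card_sdiff_of_subset hGT] at h2
    · omega
    · intro a ha b hb hab
      have h3 := (hT a (hGT ha)).1
      have h4 := (hT b (hGT hb)).1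
      simp only at hab
      omega
  obtain ⟨x, hx, hy⟩ := hex
  obtain ⟨b1, b2, b3⟩ := hT x (hGT hx)
  have h := hV1 _ (hD _ hy x hx) x (hGT hx)
  set y := σ - x with hydef
  obtain ⟨a1, a2, a3, a4⟩ := hlt x hx
  obtain ⟨c1, c2, c3, c4⟩ := hlt y hy
  have m1 : x ≠ p := by omega
  have m2 : x ≠ u x := by omega
  have m3 : y ≠ p := by omega
  have m4 : y ≠ u y := by omega
  simp only [Pi.sub_apply, qv, ind_self, ind_of_ne m1, ind_of_ne m2, ind_of_ne m3, ind_of_ne m4,
    ind_of_ne b3, ind_of_ne b3.symm] at h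
  have g1 := ind_nonneg (t x) x
  have g2 := ind_nonneg (u y) x
  have g3 := ind_le_one (t y) x
  have g4 := ind_nonneg (u x) y
  have g5 := ind_nonneg (t y) y
  have g6 : 0 < ind (t x) y := by linarith
  have hty := eq_of_ind_pos g6
  obtain ⟨f1, f2, f3, f4⟩ := htu x hx
  have hTG : T ⊆ G p A := by
    intro z hz
    obtain ⟨z1, z2, z3⟩ := hT z hz
    exact (mem_G hp).mpr ⟨hTA hz, σ - z, hTA z2, u x, f3, by omega⟩
  have := card_le_card hTG
  omega

lemma loss_six {s₁ s₂ s₃ t₁ t₂ t₃ σ : ℕ} (h1 : s₁ + t₁ = σ) (h2 : s₂ + t₂ = σ) (h3 : s₃ + t₃ = σ)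
    (hd : ({s₁, s₂, s₃, t₁, t₂, t₃} : Finset ℕ).card = 6) :
    6 ≤ loss {s₁, s₂, s₃, t₁, t₂, t₃} := by
  have hsub : pd {s₁, s₂, s₃, t₁, t₂, t₃} ⊆
      {(s₁ - s₂) + (s₂ - s₁), (s₁ - s₃) + (s₃ - s₁), (s₂ - s₃) + (s₃ - s₂),
       (s₁ - t₂) + (t₂ - s₁), (s₁ - t₃) + (t₃ - s₁), (s₂ - t₃) + (t₃ - s₂),
       (s₁ - t₁) + (t₁ - s₁), (s₂ - t₂) + (t₂ - s₂), (s₃ - t₃) + (t₃ - s₃)} := by
    intro d hd
    rw [mem_pd] at hd
    obtain ⟨h0, y, hy, hyd⟩ := hd
    simp only [mem_insert, mem_singleton] at hy hyd ⊢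
    rcases hy with h | h | h | h | h | h <;> rcases hyd with h' | h' | h' | h' | h' | h' <;>
    first
      | (exfalso; omega)
      | (left; omega)
      | (right; left; omega)
      | (right; right; left; omega)
      | (right; right; right; left; omega)
      | (right; right; right; right; left; omega)
      | (right; right; right; right; right; left; omega)
      | (right; right; right; right; right; right; left; omega)
      | (right; right; right; right; right; right; right; left; omega)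
      | (right; right; right; right; right; right; right; right; omega)
  have hc := card_le_card hsub
  have hc9 : ∀ a b c d e f g h i : ℕ, ({a, b, c, d, e, f, g, h, i} : Finset ℕ).card ≤ 9 := by
    intro a b c d e f g h i
    have k1 := card_insert_le a {b, c, d, e, f, g, h, i}
    have k2 := card_insert_le b {c, d, e, f, g, h, i}
    have k3 := card_insert_le c {d, e, f, g, h, i}
    have k4 := card_le_six (a := d) (b := e) (c := f) (d := g) (e := h) (f := i)
    omega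
  have h4 := card_pd_add_loss {s₁, s₂, s₃, t₁, t₂, t₃}
  rw [hd] at h4
  have h5 : Nat.choose 6 2 = 15 := by decide
  rw [h5] at h4
  have := hc9 ((s₁ - s₂) + (s₂ - s₁)) ((s₁ - s₃) + (s₃ - s₁)) ((s₂ - s₃) + (s₃ - s₂))
       ((s₁ - t₂) + (t₂ - s₁)) ((s₁ - t₃) + (t₃ - s₁)) ((s₂ - t₃) + (t₃ - s₂))
       ((s₁ - t₁) + (t₁ - s₁)) ((s₂ - t₂) + (t₂ - s₂)) ((s₃ - t₃) + (t₃ - s₃))
  omega

end Pool.Agent.Lib.MP_d8403e_co
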