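import Pool.Agent.Lib.MP_d8403e_co.Eleven

/-!
# Sets of rank at most three do not have loss eleven (end of the proof)
-/

namespace Pool.Agent.Lib.MP_d8403e_co

open Finset

lemma nodup_of_card_six {a b c d e f : ℕ} (h : ({a, b, c, d, e, f} : Finset ℕ).card = 6) :
    [a, b, c, d, e, f].Nodup := by
  have h1 : ({a, b, c, d, e, f} : Finset ℕ) = ((([a, b, c, d, e, f] : List ℕ) : Multiset ℕ)).toFinset := by
    ext x; simp
  rw [h1] at h
  have h2 := Multiset.toFinset_card_eq_card_iff_nodup.mp (h.trans (by simp : 6 = Multiset.card (([a, b, c, d, e, f] : List ℕ) : Multiset ℕ)))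
  simpa using h2

lemma tight3 {p : ℕ} {A : Finset ℕ} (hp : ∀ x ∈ A, x < p) (hr : rk (insert p A) ≤ rk A + 1)
    {s₁ s₂ s₃ t₁ t₂ t₃ u₁ u₂ u₃ : ℕ} (hs₁ : s₁ ∈ A) (hs₂ : s₂ ∈ A) (hs₃ : s₃ ∈ A)
    (ht₁ : t₁ ∈ A) (ht₂ : t₂ ∈ A) (ht₃ : t₃ ∈ A) (hu₁ : u₁ ∈ A) (hu₂ : u₂ ∈ A) (hu₃ : u₃ ∈ A)
    (e1 : p + u₁ = s₁ + t₁) (e2 : p + u₂ = s₂ + t₂) (e3 : p + u₃ = s₃ + t₃)
    (hd : ({s₁, s₂, s₃, t₁, t₂, t₃} : Finset ℕ).card = 6)
    (hspan : ∀ v ∈ V (insert p A), ∃ c₁ c₂ c₃ : ℚ, ∀ x, v x = c₁ * qv p u₁ s₁ t₁ x +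
      c₂ * qv p u₂ s₂ t₂ x + c₃ * qv p u₃ s₃ t₃ x) : u₁ = u₂ ∧ u₂ = u₃ := by
  have hpA : p ∉ A := fun h => lt_irrefl _ (hp p h)
  have hnd := nodup_of_card_six hd
  simp only [List.nodup_cons, List.mem_cons, List.not_mem_nil, or_false, not_or,
    List.nodup_nil, and_true, not_false_eq_true] at hnd
  obtain ⟨⟨n12, n13, m11, m12, m13⟩, ⟨n23, m21, m22, m23⟩, ⟨m31, m32, m33⟩, ⟨k12, k13⟩, k23⟩ := hnd
  have p1 := hp _ hs₁
  have p2 := hp _ hs₂
  have p3 := hp _ hs₃
  have q1 := hp _ ht₁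
  have q2 := hp _ ht₂
  have q3 := hp _ ht₃
  have r1 := hp _ hu₁
  have r2 := hp _ hu₂
  have r3 := hp _ hu₃
  obtain ⟨w, hw1, hw2, hw3, hw⟩ : ∃ w, w ≤ u₁ ∧ w ≤ u₂ ∧ w ≤ u₃ ∧ (w = u₁ ∨ w = u₂ ∨ w = u₃) := by
    refine ⟨min u₁ (min u₂ u₃), ?_, ?_, ?_, ?_⟩ <;> omega
  have x1 : w ≠ p := by omega
  have y1 : w ≠ s₁ := by omega
  have y2 : w ≠ s₂ := by omega
  have y3 : w ≠ s₃ := by omega
  have z1 : w ≠ t₁ := by omega
  have z2 : w ≠ t₂ := by omega
  have z3 : w ≠ t₃ := by omega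
  have E1 : qv p u₁ s₁ t₁ p = 1 := by
    simp only [qv, ind_self, ind_of_ne r1.ne', ind_of_ne p1.ne', ind_of_ne q1.ne']; norm_num
  have E2 : qv p u₂ s₂ t₂ p = 1 := by
    simp only [qv, ind_self, ind_of_ne r2.ne', ind_of_ne p2.ne', ind_of_ne q2.ne']; norm_num
  have E3 : qv p u₃ s₃ t₃ p = 1 := by
    simp only [qv, ind_self, ind_of_ne r3.ne', ind_of_ne p3.ne', ind_of_ne q3.ne']; norm_num
  have W1 : qv p u₁ s₁ t₁ w = ind u₁ w := by
    simp only [qv, ind_of_ne x1, ind_of_ne y1, ind_of_ne z1]; ring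
  have W2 : qv p u₂ s₂ t₂ w = ind u₂ w := by
    simp only [qv, ind_of_ne x1, ind_of_ne y2, ind_of_ne z2]; ring
  have W3 : qv p u₃ s₃ t₃ w = ind u₃ w := by
    simp only [qv, ind_of_ne x1, ind_of_ne y3, ind_of_ne z3]; ring
  have key : ∀ v ∈ quads A, v w = 0 := by
    intro v hv
    by_contra hvw
    have hv0 : v ≠ 0 := by rintro rfl; exact hvw rfl
    obtain ⟨c₁, c₂, c₃, h⟩ := hspan v (V_mono (subset_insert p A) (quads_subset_V A hv))
    have hvp : v p = 0 := V_vanish (quads_subset_V A hv) hpA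
    have hsum := hvp
    rw [h p, E1, E2, E3] at hsum
    have hvw' := hvw
    rw [h w, W1, W2, W3] at hvw'
    by_cases hc1 : c₁ = 0
    · have huu := eq_u_of_quad hv hv0 hvp (c₁ := c₂) (c₂ := c₃)
        (by intro x; rw [h x, hc1]; ring) p2 q2 r2 p3 q3 r3 e2 e3 m22 m33 m23 m32 k23 n23
      apply hvw'
      rw [huu, hc1]
      have : c₃ = -c₂ := by linarith
      rw [this]; ring
    by_cases hc2 : c₂ = 0
    · have huu := eq_u_of_quad hv hv0 hvp (c₁ := c₁) (c₂ := c₃)
        (by intro x; rw [h x, hc2]; ring) p1 q1 r1 p3 q3 r3 e1 e3 m11 m33 m13 m31 k13 n13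
      apply hvw'
      rw [huu, hc2]
      have : c₃ = -c₁ := by linarith
      rw [this]; ring
    by_cases hc3 : c₃ = 0
    · have huu := eq_u_of_quad hv hv0 hvp (c₁ := c₁) (c₂ := c₂)
        (by intro x; rw [h x, hc3]; ring) p1 q1 r1 p2 q2 r2 e1 e2 m11 m22 m12 m21 k12 n12
      apply hvw'
      rw [huu, hc3]
      have : c₂ = -c₁ := by linarith
      rw [this]; ring
    -- all coefficients are nonzero
    have hU : ({u₁, u₂, u₃} : Finset ℕ).card ≤ 3 := card_le_three
    have hwU : w ∈ ({u₁, u₂, u₃} : Finset ℕ) := by simpa using hw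
    have hwS : w ∉ ({s₁, s₂, s₃, t₁, t₂, t₃} : Finset ℕ) := by simp [y1, y2, y3, z1, z2, z3]
    have hint : ({s₁, s₂, s₃, t₁, t₂, t₃} : Finset ℕ) ∩ {u₁, u₂, u₃} ⊆
        ({u₁, u₂, u₃} : Finset ℕ).erase w := by
      intro x hx
      rw [mem_inter] at hx
      rw [mem_erase]
      refine ⟨?_, hx.2⟩
      rintro rfl
      exact hwS hx.1
    have hintc := card_le_card hint
    rw [card_erase_of_mem hwU] at hintc
    have hsd := card_sdiff_add_card_inter ({s₁, s₂, s₃, t₁, t₂, t₃} : Finset ℕ) {u₁, u₂, u₃}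
    rw [hd] at hsd
    have h5 := quad_support hv
      (insert w (({s₁, s₂, s₃, t₁, t₂, t₃} : Finset ℕ) \ {u₁, u₂, u₃})) (by
        intro x hx
        rcases mem_insert.mp hx with hx | hx
        · rw [hx]; exact hvw
        · simp only [mem_sdiff, mem_insert, mem_singleton, not_or] at hx
          obtain ⟨hx, g1, g2, g3⟩ := hx
          rw [h x]
          simp only [qv, ind_of_ne g1, ind_of_ne g2, ind_of_ne g3]
          rcases hx with hx | hx | hx | hx | hx | hx
          · rw [hx]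
            simp only [ind_self, ind_of_ne p1.ne, ind_of_ne m11, ind_of_ne n12, ind_of_ne m12,
              ind_of_ne n13, ind_of_ne m13]
            intro h0; apply hc1; linarith
          · rw [hx]
            simp only [ind_self, ind_of_ne p2.ne, ind_of_ne m22, ind_of_ne (Ne.symm n12),
              ind_of_ne m21, ind_of_ne n23, ind_of_ne m23]
            intro h0; apply hc2; linarith
          · rw [hx]
            simp only [ind_self, ind_of_ne p3.ne, ind_of_ne m33, ind_of_ne (Ne.symm n13),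
              ind_of_ne m31, ind_of_ne (Ne.symm n23), ind_of_ne m32]
            intro h0; apply hc3; linarith
          · rw [hx]
            simp only [ind_self, ind_of_ne q1.ne, ind_of_ne (Ne.symm m11), ind_of_ne (Ne.symm m21),
              ind_of_ne k12, ind_of_ne (Ne.symm m31), ind_of_ne k13]
            intro h0; apply hc1; linarith
          · rw [hx]
            simp only [ind_self, ind_of_ne q2.ne, ind_of_ne (Ne.symm m22), ind_of_ne (Ne.symm m12),
              ind_of_ne (Ne.symm k12), ind_of_ne (Ne.symm m32), ind_of_ne k23]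
            intro h0; apply hc2; linarith
          · rw [hx]
            simp only [ind_self, ind_of_ne q3.ne, ind_of_ne (Ne.symm m33), ind_of_ne (Ne.symm m13),
              ind_of_ne (Ne.symm k13), ind_of_ne (Ne.symm m23), ind_of_ne (Ne.symm k23)]
            intro h0; apply hc3; linarith)
    rw [card_insert_of_notMem (fun hh => hwS (mem_sdiff.mp hh).1)] at h5
    omega
  have hVw : ∀ v ∈ V A, v w = 0 := fun v hv => V_induction (LinearMap.proj w) key hv
  have hR1 : qv p u₁ s₁ t₁ ∈ V (insert p A) := qv_mem_V (mem_insert_self p A)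
    (mem_insert_of_mem hu₁) (mem_insert_of_mem hs₁) (mem_insert_of_mem ht₁) e1
  have hR2 : qv p u₂ s₂ t₂ ∈ V (insert p A) := qv_mem_V (mem_insert_self p A)
    (mem_insert_of_mem hu₂) (mem_insert_of_mem hs₂) (mem_insert_of_mem ht₂) e2
  have hR3 : qv p u₃ s₃ t₃ ∈ V (insert p A) := qv_mem_V (mem_insert_self p A)
    (mem_insert_of_mem hu₃) (mem_insert_of_mem hs₃) (mem_insert_of_mem ht₃) e3
  have h12 : qv p u₁ s₁ t₁ - qv p u₂ s₂ t₂ ∈ V A :=
    mem_V_of_eval_zero hpA hr hR1 (by rw [E1]; norm_num) (Submodule.sub_mem _ hR1 hR2)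
      (by rw [Pi.sub_apply, E1, E2, sub_self])
  have h23 : qv p u₂ s₂ t₂ - qv p u₃ s₃ t₃ ∈ V A :=
    mem_V_of_eval_zero hpA hr hR1 (by rw [E1]; norm_num) (Submodule.sub_mem _ hR2 hR3)
      (by rw [Pi.sub_apply, E2, E3, sub_self])
  have g12 := hVw _ h12
  have g23 := hVw _ h23
  rw [Pi.sub_apply, W1, W2] at g12
  rw [Pi.sub_apply, W2, W3] at g23
  have f1 : w = u₁ := by
    by_contra hne
    rw [ind_of_ne hne] at g12
    have hne2 : w ≠ u₂ := by rintro rfl; rw [ind_self] at g12; norm_num at g12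
    rw [ind_of_ne hne2] at g23
    have hne3 : w ≠ u₃ := by rintro rfl; rw [ind_self] at g23; norm_num at g23
    tauto
  have f2 : w = u₂ := by
    by_contra hne
    rw [ind_of_ne hne, f1, ind_self] at g12
    norm_num at g12
  have f3 : w = u₃ := by
    by_contra hne
    rw [ind_of_ne hne, f2, ind_self] at g23
    norm_num at g23
  exact ⟨f1.symm.trans f2, f2.symm.trans f3⟩

/-- The case of a smaller set of loss five and six new coincidences. -/
lemma case65 {p : ℕ} {A : Finset ℕ} (hp : ∀ x ∈ A, x < p) (hr3 : rk (insert p A) ≤ 3)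
    (hG : (G p A).card = 6) (hl : loss A = 5) : False := by
  have h1 := rk_lt_of_G hp (card_pos.mp (by omega))
  have h3 := loss_le A
  have h2 : 2 ≤ rk A := by
    by_contra hlt
    have h4 : rk A * (rk A + 1) ≤ 1 * (1 + 1) := Nat.mul_le_mul (by omega) (by omega)
    omega
  obtain ⟨L, t, u, hL, hGL, htu, hind⟩ := star hp
  have hmem : ∀ l ∈ L, qv p (u l) l (t l) ∈ V (insert p A) := by
    intro l hl
    obtain ⟨h1, h2, h3, h4⟩ := htu l (hL hl)
    exact qv_mem_V (mem_insert_self p A) (mem_insert_of_mem h3) (mem_insert_of_mem h1)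
      (mem_insert_of_mem h2) h4
  have hLc1 := card_le_rk hind hmem
  have hLc2 := card_le_card hGL
  have hLc3 := card_union_le L (L.image t)
  have hLc4 := card_image_le (s := L) (f := t)
  have hLc : L.card = 3 := by omega
  have hspan := V_eq_span hind hmem (by omega)
  obtain ⟨l₁, l₂, l₃, -, -, -, rfl⟩ := card_eq_three.mp hLc
  have hl1 : l₁ ∈ ({l₁, l₂, l₃} : Finset ℕ) := by simp
  have hl2 : l₂ ∈ ({l₁, l₂, l₃} : Finset ℕ) := by simp
  have hl3 : l₃ ∈ ({l₁, l₂, l₃} : Finset ℕ) := by simp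
  obtain ⟨a1, a2, a3, a4⟩ := htu l₁ (hL hl1)
  obtain ⟨b1, b2, b3, b4⟩ := htu l₂ (hL hl2)
  obtain ⟨c1, c2, c3, c4⟩ := htu l₃ (hL hl3)
  have hsub : ({l₁, l₂, l₃} : Finset ℕ) ∪ image t {l₁, l₂, l₃} ⊆
      {l₁, l₂, l₃, t l₁, t l₂, t l₃} := by
    intro x hx
    simp only [mem_union, mem_insert, mem_singleton, mem_image, exists_eq_or_imp,
      exists_eq_left] at hx ⊢
    rcases hx with (h | h | h) | (h | h | h) <;> simp [h]
  have hc6 : ({l₁, l₂, l₃, t l₁, t l₂, t l₃} : Finset ℕ).card = 6 := by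
    have := card_le_card hsub
    have := card_le_six (a := l₁) (b := l₂) (c := l₃) (d := t l₁) (e := t l₂) (f := t l₃)
    omega
  have hspan' : ∀ v ∈ V (insert p A), ∃ c₁ c₂ c₃ : ℚ, ∀ x,
      v x = c₁ * qv p (u l₁) l₁ (t l₁) x + c₂ * qv p (u l₂) l₂ (t l₂) x +
        c₃ * qv p (u l₃) l₃ (t l₃) x := by
    intro v hv
    rw [hspan, coe_insert, coe_insert, coe_singleton, Set.image_insert_eq, Set.image_pair,
      Submodule.mem_span_triple] at hv
    obtain ⟨c₁, c₂, c₃, h⟩ := hv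
    refine ⟨c₁, c₂, c₃, fun x => ?_⟩
    rw [← h]
    simp only [Pi.add_apply, Pi.smul_apply, smul_eq_mul]
  obtain ⟨h12, h23⟩ := tight3 hp (by omega) a1 b1 c1 a2 b2 c2 a3 b3 c3 a4 b4 c4 hc6 hspan'
  have h6 := loss_six (σ := p + u l₁) a4.symm (by rw [h12]; exact b4.symm)
    (by rw [h12, h23]; exact c4.symm) hc6
  have h7 : ({l₁, l₂, l₃, t l₁, t l₂, t l₃} : Finset ℕ) ⊆ A := by
    intro x hx
    simp only [mem_insert, mem_singleton] at hx
    rcases hx with h | h | h | h | h | h <;> rw [h] <;> assumption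
  have h8 := loss_mono h7
  omega

/-- A set of rank at most three does not have loss eleven. -/
theorem loss_ne_eleven (A : Finset ℕ) (hr : rk A ≤ 3) : loss A ≠ 11 := by
  induction A using Finset.induction_on_max with
  | empty => simp [loss]
  | insert p A hp ih =>
    intro hl
    rw [loss_insert hp] at hl
    rcases (G p A).eq_empty_or_nonempty with hG | hG
    · have h1 := V_insert_of_G_empty hp hG
      have h2 : rk (insert p A) = rk A := by rw [rk, h1, rk]
      rw [hG, card_empty, add_zero] at hl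
      rw [h2] at hr
      exact ih hr hl
    · have h1 := rk_lt_of_G hp hG
      have h2 := card_G_le hp
      have h3 := loss_le A
      have h4 : rk A * (rk A + 1) ≤ 2 * (2 + 1) := Nat.mul_le_mul (by omega) (by omega)
      have h5 : (G p A).card = 6 ∧ loss A = 5 ∨ (G p A).card = 5 ∧ loss A = 6 := by omega
      rcases h5 with ⟨h5, h6⟩ | ⟨h5, h6⟩
      · exact case65 hp hr h5 h6
      · obtain ⟨T, σ, hTA, hT6, hT, hV1, hV2⟩ := extremal2 A (by omega) h6
        refine case56 hp ?_ h5 hTA hT6 hT hV1 hV2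
        have h7 : 2 ≤ rk A := by
          by_contra hlt
          have h4 : rk A * (rk A + 1) ≤ 1 * (1 + 1) := Nat.mul_le_mul (by omega) (by omega)
          omega
        omega

end Pool.Agent.Lib.MP_d8403e_co
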