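import Pool.Agent.Lib.MP_d8403e_co.Rank

/-!
# Sets of rank two and loss six
-/

namespace Pool.Agent.Lib.MP_d8403e_co

open Finset

lemma quad_support {A : Finset ℕ} {v : ℕ → ℚ} (hv : v ∈ quads A) (S : Finset ℕ)
    (hS : ∀ x ∈ S, v x ≠ 0) : S.card ≤ 4 := by
  obtain ⟨a, -, d, -, b, -, c, -, -, rfl⟩ := hv
  have : S ⊆ {a, d, b, c} := by
    intro x hx
    by_contra hne
    simp only [mem_insert, mem_singleton, not_or] at hne
    obtain ⟨h1, h2, h3, h4⟩ := hne
    apply hS x hx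
    simp [qv, ind, h1, h2, h3, h4]
  exact (card_le_card this).trans card_le_four

/-- Explicit evaluation facts for the five support points. -/
lemma five_support {A : Finset ℕ} {v : ℕ → ℚ} (hv : v ∈ quads A) {p u₁ s₁ t₁ u₂ s₂ t₂ : ℕ} {c : ℚ}
    (hc : c ≠ 0) (hvx : ∀ x, v x = c * qv p u₁ s₁ t₁ x - c * qv p u₂ s₂ t₂ x)
    (hs₁ : s₁ < p) (ht₁ : t₁ < p) (hs₂ : s₂ < p) (ht₂ : t₂ < p)
    (h1 : s₁ ≠ t₁) (h2 : s₁ ≠ s₂) (h3 : s₁ ≠ t₂) (h4 : t₁ ≠ s₂) (h5 : t₁ ≠ t₂) (h6 : s₂ ≠ t₂)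
    (hu : u₁ ≠ u₂) (g1 : u₁ ≠ s₁) (g2 : u₁ ≠ t₁) (g3 : u₁ ≠ s₂) (g4 : u₁ ≠ t₂)
    (g5 : u₂ ≠ s₂) (g6 : u₂ ≠ t₂) (g0 : u₁ < p) : False := by
  have hcard : ({u₁, s₁, t₁, s₂, t₂} : Finset ℕ).card = 5 := by
    rw [card_insert_of_notMem, card_insert_of_notMem, card_insert_of_notMem,
      card_insert_of_notMem, card_singleton] <;> simp <;> tauto
  have := quad_support hv {u₁, s₁, t₁, s₂, t₂} (by
    intro x hx
    simp only [mem_insert, mem_singleton] at hx
    rw [hvx x, ← mul_sub]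
    apply mul_ne_zero hc
    rcases hx with rfl | rfl | rfl | rfl | rfl
    · simp only [qv, ind_self, ind_of_ne g0.ne, ind_of_ne g1, ind_of_ne g2, ind_of_ne hu,
        ind_of_ne g3, ind_of_ne g4]
      norm_num
    · simp only [qv, ind_self, ind_of_ne hs₁.ne, ind_of_ne g1.symm, ind_of_ne h1, ind_of_ne h2,
        ind_of_ne h3]
      have := ind_nonneg u₂ x
      intro h; linarith
    · simp only [qv, ind_self, ind_of_ne ht₁.ne, ind_of_ne g2.symm, ind_of_ne h1.symm,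
        ind_of_ne h4, ind_of_ne h5]
      have := ind_nonneg u₂ x
      intro h; linarith
    · simp only [qv, ind_self, ind_of_ne hs₂.ne, ind_of_ne g3.symm, ind_of_ne h2.symm,
        ind_of_ne h4.symm, ind_of_ne h6, ind_of_ne g5.symm]
      norm_num
    · simp only [qv, ind_self, ind_of_ne ht₂.ne, ind_of_ne g4.symm, ind_of_ne h3.symm,
        ind_of_ne h5.symm, ind_of_ne h6.symm, ind_of_ne g6.symm]
      norm_num)
  omega

lemma V_eq_span {A L : Finset ℕ} {R : ℕ → ℕ → ℚ} (h : LinearIndepOn ℚ R (L : Set ℕ))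
    (hR : ∀ l ∈ L, R l ∈ V A) (hc : rk A ≤ L.card) :
    V A = Submodule.span ℚ (R '' (L : Set ℕ)) := by
  symm
  apply Submodule.eq_of_le_of_finrank_le
  · rw [Submodule.span_le]
    rintro v ⟨l, hl, rfl⟩
    exact hR l hl
  · have h1 := finrank_span_eq_card h
    have h2 : Set.range (fun x : (L : Set ℕ) => R x) = R '' (L : Set ℕ) := by
      ext v; simp
    rw [h2] at h1
    rw [h1]
    simpa [rk] using hc

/-- Distinctness from the cardinality. -/
lemma distinct_of_card {a b c d : ℕ} (h : 4 ≤ ({a, b, c, d} : Finset ℕ).card) :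
    a ≠ c ∧ b ≠ d ∧ a ≠ d ∧ b ≠ c ∧ c ≠ d ∧ a ≠ b := by
  refine ⟨?_, ?_, ?_, ?_, ?_, ?_⟩
  · rintro rfl
    have : ({a, b, a, d} : Finset ℕ) = {a, b, d} := by ext x; simp; tauto
    rw [this] at h
    have := card_le_three (a := a) (b := b) (c := d)
    omega
  · rintro rfl
    have : ({a, b, c, b} : Finset ℕ) = {a, b, c} := by ext x; simp; tauto
    rw [this] at h
    have := card_le_three (a := a) (b := b) (c := c)
    omega
  · rintro rfl
    have : ({a, b, c, a} : Finset ℕ) = {a, b, c} := by ext x; simp; tauto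
    rw [this] at h
    have := card_le_three (a := a) (b := b) (c := c)
    omega
  · rintro rfl
    have : ({a, b, b, d} : Finset ℕ) = {a, b, d} := by ext x; simp
    rw [this] at h
    have := card_le_three (a := a) (b := b) (c := d)
    omega
  · rintro rfl
    have : ({a, b, c, c} : Finset ℕ) = {a, b, c} := by ext x; simp
    rw [this] at h
    have := card_le_three (a := a) (b := b) (c := c)
    omega
  · rintro rfl
    have : ({a, a, c, d} : Finset ℕ) = {a, c, d} := by ext x; simp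
    rw [this] at h
    have := card_le_three (a := a) (b := c) (c := d)
    omega

lemma eq_u_of_quad {B : Finset ℕ} {v : ℕ → ℚ} (hv : v ∈ quads B) (hv0 : v ≠ 0)
    {p u₁ s₁ t₁ u₂ s₂ t₂ : ℕ} {c₁ c₂ : ℚ} (hvp : v p = 0)
    (h : ∀ x, v x = c₁ * qv p u₁ s₁ t₁ x + c₂ * qv p u₂ s₂ t₂ x)
    (p1 : s₁ < p) (p2 : t₁ < p) (p3 : u₁ < p) (p4 : s₂ < p) (p5 : t₂ < p) (p6 : u₂ < p)
    (e1 : p + u₁ = s₁ + t₁) (e2 : p + u₂ = s₂ + t₂)
    (d1 : s₁ ≠ t₁) (d2 : s₂ ≠ t₂) (d3 : s₁ ≠ t₂) (d4 : s₂ ≠ t₁) (d5 : t₁ ≠ t₂) (hne : s₁ ≠ s₂) :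
    u₁ = u₂ := by
  rw [h p] at hvp
  have e1' : qv p u₁ s₁ t₁ p = 1 := by
    simp only [qv, ind_self, ind_of_ne p3.ne', ind_of_ne p1.ne', ind_of_ne p2.ne']
    norm_num
  have e2' : qv p u₂ s₂ t₂ p = 1 := by
    simp only [qv, ind_self, ind_of_ne p6.ne', ind_of_ne p4.ne', ind_of_ne p5.ne']
    norm_num
  rw [e1', e2'] at hvp
  have hc2 : c₂ = -c₁ := by linarith
  have hc1 : c₁ ≠ 0 := by
    intro h0
    apply hv0
    ext x
    rw [h x, hc2, h0]
    simp
  by_contra hne'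
  rcases lt_or_gt_of_ne hne' with hlt | hlt
  · refine five_support hv (p := p) (u₁ := u₁) (s₁ := s₁) (t₁ := t₁) (u₂ := u₂) (s₂ := s₂)
      (t₂ := t₂) (c := c₁) hc1 ?_ p1 p2 p4 p5 d1 hne d3 (Ne.symm d4) d5 d2 hne' ?_ ?_ ?_ ?_ ?_ ?_ p3
    · intro x; rw [h x, hc2]; ring
    all_goals omega
  · refine five_support hv (p := p) (u₁ := u₂) (s₁ := s₂) (t₁ := t₂) (u₂ := u₁) (s₂ := s₁)
      (t₂ := t₁) (c := c₂) ?_ ?_ p4 p5 p1 p2 d2 (Ne.symm hne) d4 (Ne.symm d3) (Ne.symm d5) d1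
      (Ne.symm hne') ?_ ?_ ?_ ?_ ?_ ?_ p6
    · rw [hc2]; exact neg_ne_zero.mpr hc1
    · intro x; rw [h x, hc2]; ring
    all_goals omega

lemma six_points {p u s₁ t₁ s₂ t₂ : ℕ} (p1 : s₁ < p) (p2 : t₁ < p) (p4 : s₂ < p) (p5 : t₂ < p)
    (e1 : p + u = s₁ + t₁) (e2 : p + u = s₂ + t₂)
    (d1 : s₁ ≠ t₁) (d2 : s₂ ≠ t₂) (d3 : s₁ ≠ t₂) (d4 : s₂ ≠ t₁) (d5 : t₁ ≠ t₂) (hne : s₁ ≠ s₂) :
    ({p, u, s₁, t₁, s₂, t₂} : Finset ℕ).card = 6 ∧
    (∀ x ∈ ({p, u, s₁, t₁, s₂, t₂} : Finset ℕ), x ≤ p + u ∧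
      p + u - x ∈ ({p, u, s₁, t₁, s₂, t₂} : Finset ℕ) ∧ x ≠ p + u - x) ∧
    (∀ x ∈ ({p, u, s₁, t₁, s₂, t₂} : Finset ℕ), ∀ c₁ c₂ : ℚ,
      c₁ * qv p u s₁ t₁ x + c₂ * qv p u s₂ t₂ x =
      c₁ * qv p u s₁ t₁ (p + u - x) + c₂ * qv p u s₂ t₂ (p + u - x)) ∧
    (∀ x, x ∉ ({p, u, s₁, t₁, s₂, t₂} : Finset ℕ) → ∀ c₁ c₂ : ℚ,
      c₁ * qv p u s₁ t₁ x + c₂ * qv p u s₂ t₂ x = 0) := by
  refine ⟨?_, ?_, ?_, ?_⟩
  · rw [card_insert_of_notMem, card_insert_of_notMem, card_insert_of_notMem,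
      card_insert_of_notMem, card_insert_of_notMem, card_singleton] <;>
      simp only [mem_insert, mem_singleton] <;> omega
  · intro x hx
    simp only [mem_insert, mem_singleton] at hx ⊢
    omega
  · intro x hx c₁ c₂
    simp only [mem_insert, mem_singleton] at hx
    have f1 : p + u - p = u := by omega
    have f2 : p + u - u = p := by omega
    have f3 : p + u - s₁ = t₁ := by omega
    have f4 : p + u - t₁ = s₁ := by omega
    have f5 : p + u - s₂ = t₂ := by omega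
    have f6 : p + u - t₂ = s₂ := by omega
    have n1 : p ≠ u := by omega
    have n2 : p ≠ s₁ := by omega
    have n3 : p ≠ t₁ := by omega
    have n4 : p ≠ s₂ := by omega
    have n5 : p ≠ t₂ := by omega
    have n6 : u ≠ s₁ := by omega
    have n7 : u ≠ t₁ := by omega
    have n8 : u ≠ s₂ := by omega
    have n9 : u ≠ t₂ := by omega
    rcases hx with h | h | h | h | h | h
    all_goals
      rw [h]
      simp only [f1, f2, f3, f4, f5, f6, qv, ind, n1, n2, n3, n4, n5, n6, n7, n8, n9,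
        n1.symm, n2.symm, n3.symm, n4.symm, n5.symm, n6.symm, n7.symm, n8.symm, n9.symm,
        d1, d2, d3, d4, d5, hne, Ne.symm d1, Ne.symm d2, Ne.symm d3, Ne.symm d4, Ne.symm d5,
        Ne.symm hne, if_true, if_false]
      ring
  · intro x hx c₁ c₂
    simp only [mem_insert, mem_singleton, not_or] at hx
    obtain ⟨m1, m2, m3, m4, m5, m6⟩ := hx
    simp [qv, ind, m1, m2, m3, m4, m5, m6]

/-- Sets of rank at most two and loss six consist of three pairs with the same sum (plus elements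
that are in no quadruple). -/
lemma extremal2 (B : Finset ℕ) (hr : rk B ≤ 2) (hl : loss B = 6) :
    ∃ (T : Finset ℕ) (σ : ℕ), T ⊆ B ∧ T.card = 6 ∧ (∀ x ∈ T, x ≤ σ ∧ σ - x ∈ T ∧ x ≠ σ - x) ∧
      (∀ v ∈ V B, ∀ x ∈ T, v x = v (σ - x)) ∧ (∀ v ∈ V B, ∀ x, x ∉ T → v x = 0) := by
  induction B using Finset.induction_on_max with
  | empty => simp [loss] at hl
  | insert p B hp ih =>
    rcases (G p B).eq_empty_or_nonempty with hG | hG
    · have h1 := V_insert_of_G_empty hp hG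
      have h2 : rk (insert p B) = rk B := by rw [rk, h1, rk]
      rw [loss_insert hp, hG, card_empty, add_zero] at hl
      rw [h2] at hr
      obtain ⟨T, σ, hT, h3⟩ := ih hr hl
      rw [h1]
      exact ⟨T, σ, hT.trans (subset_insert p B), h3⟩
    · have h1 := rk_lt_of_G hp hG
      have h2 := card_G_le hp
      have h3 := loss_le B
      rw [loss_insert hp] at hl
      have h4 : rk B * (rk B + 1) ≤ 1 * (1 + 1) := Nat.mul_le_mul (by omega) (by omega)
      have h5 : (G p B).card = 4 := by omega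
      have h6 : loss B = 2 := by omega
      have h7 := rk_pos_of_loss (A := B) (by omega)
      obtain ⟨L, t, u, hL, hGL, htu, hind⟩ := star hp
      have hmem : ∀ l ∈ L, qv p (u l) l (t l) ∈ V (insert p B) := by
        intro l hl
        obtain ⟨h1, h2, h3, h4⟩ := htu l (hL hl)
        exact qv_mem_V (mem_insert_self p B) (mem_insert_of_mem h3) (mem_insert_of_mem h1)
          (mem_insert_of_mem h2) h4
      have hLc1 := card_le_rk hind hmem
      have hLc2 := card_le_card hGL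
      have hLc3 := card_union_le L (L.image t)
      have hLc4 := card_image_le (s := L) (f := t)
      have hLc : L.card = 2 := by omega
      have hspan := V_eq_span hind hmem (by omega)
      obtain ⟨l₁, l₂, hne, rfl⟩ := card_eq_two.mp hLc
      have hl1 : l₁ ∈ ({l₁, l₂} : Finset ℕ) := by simp
      have hl2 : l₂ ∈ ({l₁, l₂} : Finset ℕ) := by simp
      obtain ⟨a1, a2, a3, a4⟩ := htu l₁ (hL hl1)
      obtain ⟨b1, b2, b3, b4⟩ := htu l₂ (hL hl2)
      have hsub : ({l₁, l₂} : Finset ℕ) ∪ image t {l₁, l₂} ⊆ {l₁, l₂, t l₁, t l₂} := by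
        intro x hx
        simp only [mem_union, mem_insert, mem_singleton, mem_image, exists_eq_or_imp,
          exists_eq_left] at hx ⊢
        rcases hx with (h | h) | (h | h) <;> simp [h]
      have hc4 : 4 ≤ ({l₁, l₂, t l₁, t l₂} : Finset ℕ).card := by
        have := card_le_card hsub
        omega
      obtain ⟨d1, d2, d3, d4, d5, -⟩ := distinct_of_card hc4
      have p1 := hp _ a1
      have p2 := hp _ a2
      have p3 := hp _ a3
      have p4 := hp _ b1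
      have p5 := hp _ b2
      have p6 := hp _ b3
      have hspan' : ∀ v ∈ V (insert p B), ∃ c₁ c₂ : ℚ, ∀ x,
          v x = c₁ * qv p (u l₁) l₁ (t l₁) x + c₂ * qv p (u l₂) l₂ (t l₂) x := by
        intro v hv
        rw [hspan, coe_insert, coe_singleton, Set.image_pair, Submodule.mem_span_pair] at hv
        obtain ⟨c₁, c₂, h⟩ := hv
        refine ⟨c₁, c₂, fun x => ?_⟩
        rw [← h]
        simp only [Pi.add_apply, Pi.smul_apply, smul_eq_mul]
      obtain ⟨v, hv, hv0⟩ := exists_quad_ne_zero h7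
      have huu : u l₁ = u l₂ := by
        obtain ⟨c₁, c₂, h⟩ := hspan' v (V_mono (subset_insert p B) (quads_subset_V B hv))
        exact eq_u_of_quad hv hv0
          (V_vanish (quads_subset_V B hv) (fun h => lt_irrefl _ (hp p h))) h p1 p2 p3 p4 p5 p6
          a4 b4 d1 d2 d3 d4 d5 hne
      rw [← huu] at b4
      obtain ⟨k1, k2, k3, k4⟩ := six_points p1 p2 p4 p5 a4 b4 d1 d2 d3 d4 d5 hne
      refine ⟨{p, u l₁, l₁, t l₁, l₂, t l₂}, p + u l₁, ?_, k1, k2, ?_, ?_⟩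
      · intro x hx
        simp only [mem_insert, mem_singleton] at hx
        rcases hx with h | h | h | h | h | h <;> rw [h] <;> simp [*]
      · intro v hv x hx
        obtain ⟨c₁, c₂, h⟩ := hspan' v hv
        rw [h, h, ← huu]
        exact k3 x hx c₁ c₂
      · intro v hv x hx
        obtain ⟨c₁, c₂, h⟩ := hspan' v hv
        rw [h, ← huu]
        exact k4 x hx c₁ c₂

end Pool.Agent.Lib.MP_d8403e_co
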