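import Pool.Agent.Lib.MP_d8403e_co.Double

/-!
# `P (P - 1) - 1` is a divot for large `n`, for every `P ≥ 7`
-/

namespace Pool.Agent.Lib.MP_d8403e_co

open Finset

lemma upper_one (P : ℕ) (hP : 7 ≤ P) : ∃ A : ℕ, ∀ n : ℕ, 0 < n →
    count n (2 * (P.choose 2 - 1) + 1) ≤
      (((range n).powersetCard P).filter (fun S => loss S = 1)).card + A * n ^ (P - 2) := by
  have hc1 : (P + 1).choose 2 = P.choose 2 + P := choose_two_succ P
  have hc2 : P.choose 2 = (P - 1).choose 2 + (P - 1) := by
    have := choose_two_succ (P - 1)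
    rwa [Nat.sub_add_cancel (by omega)] at this
  obtain ⟨A, hA⟩ := count_big (P + 1) 2 (P.choose 2 - 1) (by omega) (by omega)
  refine ⟨A, fun n hn => ?_⟩
  rw [count_eq n (by omega)]
  have hsub : (range n).powerset.filter (fun S => (pd S).card = P.choose 2 - 1) ⊆
      ((range n).powersetCard P).filter (fun S => loss S = 1) ∪
      (range n).powerset.filter (fun S => P + 1 ≤ S.card ∧ (pd S).card = P.choose 2 - 1) := by
    intro S hS
    rw [mem_filter, mem_powerset] at hS
    rw [mem_union, mem_filter, mem_filter, mem_powerset, mem_powersetCard]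
    obtain ⟨hSn, hpd⟩ := hS
    have h1 := card_pd_add_loss S
    rcases lt_trichotomy S.card P with hlt | heq | hlt
    · exfalso
      have h3 := Nat.choose_le_choose 2 (by omega : S.card ≤ P - 1)
      omega
    · left
      rw [heq] at h1
      exact ⟨⟨hSn, heq⟩, by omega⟩
    · right
      exact ⟨hSn, hlt, hpd⟩
  refine (card_le_card hsub).trans ((card_union_le _ _).trans ?_)
  have h1 := hA n hn
  have e1 : P + 1 - 2 - 1 = P - 2 := by omega
  rw [e1] at h1
  omega

lemma lower_two (P n : ℕ) (hP : 7 ≤ P) :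
    (((range n).powersetCard P).filter (fun S => loss S = 2)).card ≤
      count n (2 * (P.choose 2 - 2) + 1) := by
  have hc2 : P.choose 2 = (P - 1).choose 2 + (P - 1) := by
    have := choose_two_succ (P - 1)
    rwa [Nat.sub_add_cancel (by omega)] at this
  rw [count_eq n (by omega)]
  apply card_le_card
  intro S hS
  rw [mem_filter, mem_powersetCard] at hS
  rw [mem_filter, mem_powerset]
  have h1 := card_pd_add_loss S
  rw [hS.1.2] at h1
  exact ⟨hS.1.1, by omega⟩

lemma lower_zero (P : ℕ) (hP : 7 ≤ P) : ∃ E : ℕ, ∀ n : ℕ, 0 < n →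
    n.choose P ≤ count n (2 * P.choose 2 + 1) + E * n ^ (P - 1) := by
  have hc2 : P.choose 2 = (P - 1).choose 2 + (P - 1) := by
    have := choose_two_succ (P - 1)
    rwa [Nat.sub_add_cancel (by omega)] at this
  obtain ⟨E, hE⟩ := card_rank_le P 1
  refine ⟨E, fun n hn => ?_⟩
  rw [count_eq n (by omega)]
  have hsub : (range n).powersetCard P ⊆
      (range n).powerset.filter (fun S => (pd S).card = P.choose 2) ∪
      ((range n).powersetCard P).filter (fun S => 1 ≤ rk S) := by
    intro S hS
    rw [mem_union, mem_filter, mem_filter, mem_powerset]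
    have hS' := mem_powersetCard.mp hS
    by_cases hr : 1 ≤ rk S
    · right; exact ⟨hS, hr⟩
    · left
      have h1 := card_pd_add_loss S
      have h2 := loss_le S
      have h3 : rk S = 0 := by omega
      rw [h3] at h2
      rw [hS'.2] at h1
      exact ⟨hS'.1, by omega⟩
  have h1 := card_le_card hsub
  rw [card_powersetCard, card_range] at h1
  have h2 := hE n hn
  have h3 := card_union_le ((range n).powerset.filter (fun S => (pd S).card = P.choose 2))
    (((range n).powersetCard P).filter (fun S => 1 ≤ rk S))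
  omega

lemma pow_le_choose_mul {n k : ℕ} (h : 2 * k ≤ n) :
    n ^ k ≤ 2 ^ k * k.factorial * n.choose k := by
  have h1 := Nat.pow_sub_le_descFactorial n k
  rw [Nat.descFactorial_eq_factorial_mul_choose] at h1
  have h2 : n ≤ 2 * (n + 1 - k) := by omega
  calc n ^ k ≤ (2 * (n + 1 - k)) ^ k := Nat.pow_le_pow_left h2 k
    _ = 2 ^ k * (n + 1 - k) ^ k := mul_pow _ _ _
    _ ≤ 2 ^ k * (k.factorial * n.choose k) := Nat.mul_le_mul_left _ h1
    _ = _ := by ring

lemma choose_step {m k : ℕ} (h : 50 * k ≤ m + 1) :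
    49 * (m + 1).choose k ≤ 50 * m.choose k := by
  have h1 := Nat.choose_mul_succ_eq m k
  have h2 : 49 * (m + 1) ≤ 50 * (m + 1 - k) := by omega
  have h3 : (49 * (m + 1).choose k) * (m + 1) ≤ (50 * m.choose k) * (m + 1) := by
    calc (49 * (m + 1).choose k) * (m + 1) = (m + 1).choose k * (49 * (m + 1)) := by ring
      _ ≤ (m + 1).choose k * (50 * (m + 1 - k)) := Nat.mul_le_mul_left _ h2
      _ = 50 * ((m + 1).choose k * (m + 1 - k)) := by ring
      _ = 50 * (m.choose k * (m + 1)) := by rw [h1]
      _ = _ := by ring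
  exact Nat.le_of_mul_le_mul_right h3 (by omega)

lemma choose_four {n k : ℕ} (h : 50 * k + 4 ≤ n) :
    9 * n.choose k ≤ 10 * (n - 4).choose k := by
  obtain ⟨m, rfl⟩ : ∃ m, n = m + 4 := ⟨n - 4, by omega⟩
  have h1 := choose_step (m := m) (k := k) (by omega)
  have h2 := choose_step (m := m + 1) (k := k) (by omega)
  have h3 := choose_step (m := m + 2) (k := k) (by omega)
  have h4 := choose_step (m := m + 3) (k := k) (by omega)
  have e : m + 4 - 4 = m := by omega
  rw [e]
  have e1 : m + 1 + 1 = m + 2 := rfl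
  have e2 : m + 2 + 1 = m + 3 := rfl
  have e3 : m + 3 + 1 = m + 4 := rfl
  rw [e1] at h2
  rw [e2] at h3
  rw [e3] at h4
  omega

lemma triples_large {n : ℕ} (hn : 60 ≤ n) : 9 * n ^ 3 ≤ 60 * (triples n).card := by
  have h := card_triples n
  obtain ⟨m, rfl⟩ : ∃ m, n = m + 60 := ⟨n - 60, by omega⟩
  have e1 : m + 60 - 1 = m + 59 := by omega
  have e2 : m + 60 - 2 = m + 58 := by omega
  rw [e1, e2] at h
  nlinarith

/-- The comparison of the three counts. -/
theorem count_compare (P : ℕ) (hP : 7 ≤ P) : ∃ N : ℕ, ∀ n ≥ N,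
    count n (2 * (P.choose 2 - 1) + 1) < count n (2 * (P.choose 2 - 2) + 1) ∧
    count n (2 * (P.choose 2 - 1) + 1) < count n (2 * P.choose 2 + 1) := by
  obtain ⟨A, hA⟩ := upper_one P hP
  obtain ⟨E, hE⟩ := lower_zero P hP
  obtain ⟨B, hB⟩ := card_rank_le P 2
  set k := P - 4 with hk
  set K := 2 ^ k * k.factorial with hK
  set L := 2 ^ P * P.factorial with hL
  refine ⟨K * (200 * A + 100 * (P ^ 3 * B)) + L * (E + 1 + A) + 50 * P + 60, fun n hn => ?_⟩
  have hn0 : 0 < n := by omega
  have hn1 : K * (200 * A + 100 * (P ^ 3 * B)) < n := by omega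
  have hn2 : L * (E + 1 + A) < n := by omega
  have hn3 : 50 * k + 4 ≤ n := by omega
  have hn4 : 60 ≤ n := by omega
  have hn5 : 2 * P ≤ n := by omega
  clear hn
  have h1 := hA n hn0
  have h2 := hE n hn0
  have h3 := hB n hn0
  have h4 := lower_two P n hP
  have h5 := double_count n P (by omega)
  have h6 := card_loss_one_le n P (by omega)
  rw [← hk] at h5 h6
  have h7 := choose_four hn3
  have h8 := triples_large hn4
  have h9 := pow_le_choose_mul (n := n) (k := k) (by omega)
  rw [← hK] at h9
  set N₁ := (((range n).powersetCard P).filter (fun S => loss S = 1)).card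
  set N₂ := (((range n).powersetCard P).filter (fun S => loss S = 2)).card
  set R₂ := (((range n).powersetCard P).filter (fun S => 2 ≤ rk S)).card
  set X := n ^ (P - 2) with hX
  set Y := n ^ 3 * n.choose k with hY
  have hXpos : 0 < X := pow_pos hn0 _
  have hXpow : n * X = n ^ 3 * n ^ k := by
    rw [hX, ← pow_succ', ← pow_add]
    congr 1
    omega
  have hKY : n * X ≤ K * Y := by
    rw [hXpow, hY]
    calc n ^ 3 * n ^ k ≤ n ^ 3 * (K * n.choose k) := Nat.mul_le_mul_left _ h9
      _ = _ := by ring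
  have hKpos : 0 < K := by positivity
  have hAX : (200 * A + 100 * (P ^ 3 * B)) * X < Y := by
    have : K * ((200 * A + 100 * (P ^ 3 * B)) * X) < K * Y := by
      calc K * ((200 * A + 100 * (P ^ 3 * B)) * X) = (K * (200 * A + 100 * (P ^ 3 * B))) * X := by
            ring
        _ < n * X := Nat.mul_lt_mul_of_pos_right hn1 hXpos
        _ ≤ K * Y := hKY
    exact lt_of_mul_lt_mul_left this (Nat.zero_le K)
  have hN1 : 16 * N₁ ≤ Y := by
    refine le_trans ?_ h6
    apply Nat.mul_le_mul_right
    omega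
  have hR2 : P ^ 3 * R₂ ≤ (P ^ 3 * B) * X := by
    calc P ^ 3 * R₂ ≤ P ^ 3 * (B * X) := Nat.mul_le_mul_left _ h3
      _ = _ := by ring
  have hN2 : 81 * Y ≤ 600 * (2 * N₂ + P ^ 3 * R₂) := by
    calc 81 * Y = (9 * n ^ 3) * (9 * n.choose k) := by rw [hY]; ring
      _ ≤ (60 * (triples n).card) * (10 * (n - 4).choose k) := Nat.mul_le_mul h8 h7
      _ = 600 * ((triples n).card * (n - 4).choose k) := by ring
      _ ≤ _ := Nat.mul_le_mul_left _ h5
  constructor
  · have hAX' : 200 * (A * X) + 100 * (P ^ 3 * B * X) < Y := by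
      calc 200 * (A * X) + 100 * (P ^ 3 * B * X) = (200 * A + 100 * (P ^ 3 * B)) * X := by ring
        _ < Y := hAX
    generalize hZ : P ^ 3 * B * X = Z at *
    generalize hZ2 : A * X = Z2 at *
    generalize hZ3 : P ^ 3 * R₂ = Z3 at *
    omega
  · -- the comparison with the generic sets
    set W := n ^ (P - 1) with hW
    have hXW : X ≤ W := Nat.pow_le_pow_right hn0 (by omega)
    have hYW : Y ≤ W := by
      have h10 : n.choose k ≤ n ^ k := Nat.choose_le_pow n k
      calc Y = n ^ 3 * n.choose k := hY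
        _ ≤ n ^ 3 * n ^ k := Nat.mul_le_mul_left _ h10
        _ = W := by rw [hW, ← pow_add]; congr 1; omega
    have hWpos : 0 < W := pow_pos hn0 _
    have h11 := pow_le_choose_mul (n := n) (k := P) hn5
    rw [← hL] at h11
    have hLpos : 0 < L := by positivity
    have hnW : n * W = n ^ P := by
      rw [hW, ← pow_succ']
      congr 1
      omega
    have h12 : (E + 1 + A) * W < n.choose P := by
      have : L * ((E + 1 + A) * W) < L * n.choose P := by
        calc L * ((E + 1 + A) * W) = (L * (E + 1 + A)) * W := by ring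
          _ < n * W := Nat.mul_lt_mul_of_pos_right hn2 hWpos
          _ = n ^ P := hnW
          _ ≤ L * n.choose P := h11
      exact lt_of_mul_lt_mul_left this (Nat.zero_le L)
    have h13 : A * X ≤ A * W := Nat.mul_le_mul_left _ hXW
    have h14 : (E + 1 + A) * W = E * W + W + A * W := by ring
    omega

end Pool.Agent.Lib.MP_d8403e_co
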