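import Pool.Agent.Lib.MP_d8403e_co.PartA
import Pool.Agent.Lib.MP_d8403e_co.PartB

/-!
# Both parts of the divot statement are false
-/

namespace Pool.Agent.Lib.MP_d8403e_co

open Finset

lemma prob_pos_iff {n m : ℕ} : 0 < prob n m ↔ 0 < count n m := by
  unfold prob
  rw [div_pos_iff_of_pos_right (by positivity)]
  exact Nat.cast_pos

lemma prob_zero {n m : ℕ} (h : count n m = 0) : prob n m = 0 := by
  unfold prob; rw [h]; simp

lemma prob_lt_iff {n m m' : ℕ} : prob n m < prob n m' ↔ count n m < count n m' := by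
  unfold prob
  rw [div_lt_div_iff_of_pos_right (by positivity)]
  exact Nat.cast_lt

lemma divot_of {n d : ℕ} (hd : 2 ≤ d) (h0 : 0 < count n (2 * d + 1))
    (h1 : count n (2 * d + 1) < count n (2 * (d - 1) + 1))
    (h2 : count n (2 * d + 1) < count n (2 * (d + 1) + 1)) : HasDivot (prob n) (2 * d + 1) := by
  refine ⟨prob_pos_iff.mpr h0, ⟨2 * (d - 1) + 1, by omega, ?_, ?_, prob_lt_iff.mpr h1⟩,
    ⟨2 * (d + 1) + 1, by omega, ?_, ?_, prob_lt_iff.mpr h2⟩⟩
  · exact (prob_pos_iff.mpr (by omega)).ne'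
  · intro l hl1 hl2
    exact prob_zero (count_even n (by omega) (by omega))
  · exact (prob_pos_iff.mpr (by omega)).ne'
  · intro l hl1 hl2
    exact prob_zero (count_even n (by omega) (by omega))

lemma not_divot_159 : ∃ N : ℕ, ∀ n ≥ N, ¬ HasDivot (prob n) (13 * (13 - 1) + 3) := by
  obtain ⟨N, hN⟩ := count_161_lt
  refine ⟨N + 161, fun n hn => ?_⟩
  rintro ⟨-, -, j, hj1, hj2, hj3, hj4⟩
  have h1 := hN n (by omega)
  have h2 : 0 < count n 161 := count_pos (n := n) (d := 80) (by norm_num) (by omega)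
  have hj5 : j ≠ 160 := by
    rintro rfl
    exact hj2 (prob_zero (count_even n (by norm_num) (by norm_num)))
  have hj6 : ¬ 161 < j := by
    intro hlt
    have := hj3 161 (by norm_num) hlt
    have := prob_pos_iff.mpr h2
    linarith
  have hj7 : j = 161 := by omega
  subst hj7
  have h3 := prob_lt_iff.mp hj4
  have h4 : 13 * (13 - 1) + 3 = 159 := by norm_num
  rw [h4] at h3
  omega

lemma two_mul_choose_two (P : ℕ) : 2 * P.choose 2 = P * (P - 1) := by
  rw [Nat.choose_two_right]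
  exact Nat.mul_div_cancel' (Nat.even_mul_pred_self P).two_dvd

lemma divot_extra (P : ℕ) (hP : 7 ≤ P) :
    ∃ N : ℕ, ∀ n ≥ N, HasDivot (prob n) (P * (P - 1) - 1) := by
  obtain ⟨N, hN⟩ := count_compare P hP
  have h1 := two_mul_choose_two P
  have h21 : 21 ≤ P.choose 2 := by
    have := Nat.choose_le_choose 2 hP
    have h7 : Nat.choose 7 2 = 21 := by decide
    omega
  refine ⟨N + P.choose 2, fun n hn => ?_⟩
  have hpos : 0 < count n (2 * (P.choose 2 - 1) + 1) := count_pos (by omega) (by omega)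
  obtain ⟨h2, h3⟩ := hN n (by omega)
  have e1 : P * (P - 1) - 1 = 2 * (P.choose 2 - 1) + 1 := by omega
  have e2 : P.choose 2 - 1 - 1 = P.choose 2 - 2 := by omega
  have e3 : P.choose 2 - 1 + 1 = P.choose 2 := by omega
  rw [e1]
  apply divot_of (by omega) hpos
  · rw [e2]; exact h2
  · rw [e3]; exact h3

lemma not_form (P : ℕ) (hP : 7 ≤ P) (k : ℕ) : P * (P - 1) - 1 ≠ k * (k - 1) + 3 := by
  intro h
  obtain ⟨p, rfl⟩ : ∃ p, P = p + 7 := ⟨P - 7, by omega⟩
  have e1 : p + 7 - 1 = p + 6 := by omega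
  rw [e1] at h
  rcases Nat.lt_or_ge k (p + 7) with hk | hk
  · have h1 : k * (k - 1) ≤ (p + 6) * (p + 5) := Nat.mul_le_mul (by omega) (by omega)
    have h2 : (p + 7) * (p + 6) = (p + 6) * (p + 5) + 2 * (p + 6) := by ring
    omega
  · have h1 : (p + 7) * (p + 6) ≤ k * (k - 1) := Nat.mul_le_mul hk (by omega)
    omega

theorem main :
    (∃ N : ℕ, ∀ n ≥ N, ¬ HasDivot (prob n) (13 * (13 - 1) + 3)) ∧
    (∀ P ≥ 7, ∃ N : ℕ, ∀ n ≥ N, HasDivot (prob n) (P * (P - 1) - 1)) ∧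
    ¬ (∀ k ≥ 2, ∃ N : ℕ, ∀ n ≥ N, HasDivot (prob n) (k * (k - 1) + 3)) ∧
    ¬ (∃ N : ℕ, ∀ n ≥ N, ∀ i, HasDivot (prob n) i → ∃ k ≥ 2, i = k * (k - 1) + 3) := by
  refine ⟨not_divot_159, divot_extra, ?_, ?_⟩
  · intro h
    obtain ⟨N₁, h1⟩ := h 13 (by norm_num)
    obtain ⟨N₂, h2⟩ := not_divot_159
    exact h2 (N₁ + N₂) (by omega) (h1 (N₁ + N₂) (by omega))
  · rintro ⟨N₁, h1⟩
    obtain ⟨N₂, h2⟩ := divot_extra 7 le_rfl
    obtain ⟨k, -, hk⟩ := h1 (N₁ + N₂) (by omega) _ (h2 (N₁ + N₂) (by omega))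
    exact not_form 7 le_rfl k hk

end Pool.Agent.Lib.MP_d8403e_co
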