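import Pool.Agent.Lib.MP_d8403e_co.ApCount

/-!
# Counting sets that contain exactly one parallelogram
-/

namespace Pool.Agent.Lib.MP_d8403e_co

open Finset

/-- Triples `i < j < k < n` that are not in arithmetic progression. -/
def triples (n : ℕ) : Finset (ℕ × ℕ × ℕ) :=
  (range n ×ˢ range n ×ˢ range n).filter
    (fun t => t.1 < t.2.1 ∧ t.2.1 < t.2.2 ∧ t.1 + t.2.2 ≠ 2 * t.2.1)

/-- The parallelogram of a triple. -/
def para (t : ℕ × ℕ × ℕ) : Finset ℕ := {t.1, t.2.2, t.2.1, t.1 + t.2.2 - t.2.1}

lemma mem_triples {n i j k : ℕ} :
    (i, j, k) ∈ triples n ↔ i < j ∧ j < k ∧ k < n ∧ i + k ≠ 2 * j := by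
  simp only [triples, mem_filter, mem_product, mem_range]
  omega

lemma card_para {i j k : ℕ} (h1 : i < j) (h2 : j < k) (h3 : i + k ≠ 2 * j) :
    (para (i, j, k)).card = 4 := by
  unfold para
  rw [card_insert_of_notMem, card_insert_of_notMem, card_insert_of_notMem, card_singleton] <;>
    simp only [mem_insert, mem_singleton] <;> omega

lemma para_subset {n i j k : ℕ} (h : (i, j, k) ∈ triples n) : para (i, j, k) ⊆ range n := by
  rw [mem_triples] at h
  intro x hx
  simp only [para, mem_insert, mem_singleton] at hx
  rw [mem_range]
  omega

/-- The number of triples. -/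
lemma card_triples (n : ℕ) : n * (n - 1) * (n - 2) ≤ 6 * (triples n).card + 3 * n ^ 2 := by
  induction n with
  | zero => simp
  | succ n ih =>
    -- the new triples are those with `k = n`
    have hT : ∀ m : ℕ, m * (m - 1) ≤ 2 * ((range m ×ˢ range m).filter
        (fun p : ℕ × ℕ => p.1 < p.2 ∧ p.1 + n ≠ 2 * p.2)).card + 2 * m := by
      intro m
      induction m with
      | zero => simp
      | succ m ihm =>
        have hsub : ((range m ×ˢ range m).filter
            (fun p : ℕ × ℕ => p.1 < p.2 ∧ p.1 + n ≠ 2 * p.2)) ∪
            ((range m).erase (2 * m - n)).image (fun i => (i, m)) ⊆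
            ((range (m + 1) ×ˢ range (m + 1)).filter
            (fun p : ℕ × ℕ => p.1 < p.2 ∧ p.1 + n ≠ 2 * p.2)) := by
          rintro ⟨a, b⟩ h
          simp only [mem_filter, mem_product, mem_range, mem_union, mem_image, mem_erase,
            Prod.mk.injEq] at h ⊢
          rcases h with ⟨⟨h1, h2⟩, h3, h4⟩ | ⟨i, ⟨h1, h2⟩, h3, h4⟩ <;> omega
        have h1 := card_le_card hsub
        rw [card_union_of_disjoint, card_image_of_injective] at h1
        · have h2 : m - 1 ≤ ((range m).erase (2 * m - n)).card := by
            have := pred_card_le_card_erase (s := range m) (a := 2 * m - n)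
            rwa [card_range] at this
          rcases m with _ | m
          · simp
          · simp only [Nat.add_sub_cancel] at ihm h1 h2 ⊢
            nlinarith
        · intro a b hab
          simpa using hab
        · rw [disjoint_left]
          rintro ⟨a, b⟩ ha hb
          simp only [mem_filter, mem_product, mem_range, mem_image, Prod.mk.injEq] at ha hb
          obtain ⟨i, -, -, h4⟩ := hb
          omega
    have hsub : triples n ∪ ((range n ×ˢ range n).filter
        (fun p : ℕ × ℕ => p.1 < p.2 ∧ p.1 + n ≠ 2 * p.2)).image (fun p => (p.1, p.2, n)) ⊆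
        triples (n + 1) := by
      rintro ⟨a, b, c⟩ h
      rw [mem_union, mem_triples] at h
      rw [mem_triples]
      simp only [mem_filter, mem_product, mem_range, mem_image, Prod.mk.injEq, Prod.exists] at h
      rcases h with h | ⟨x, y, ⟨⟨h1, h2⟩, h3, h4⟩, h5, h6, h7⟩ <;> omega
    have h1 := card_le_card hsub
    rw [card_union_of_disjoint, card_image_of_injective] at h1
    · have h2 := hT n
      rcases n with _ | n
      · simp
      · rcases n with _ | n
        · simp
        · simp only [Nat.add_sub_cancel] at ih h1 h2 ⊢
          have e1 : n + 1 + 1 - 2 = n := by omega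
          have e2 : n + 1 + 1 + 1 - 2 = n + 1 := by omega
          rw [e1] at ih
          rw [e2]
          nlinarith
    · rintro ⟨a, b⟩ ⟨c, d⟩ hab
      simp only [Prod.mk.injEq] at hab ⊢
      exact ⟨hab.1, hab.2.1⟩
    · rw [disjoint_left]
      rintro ⟨a, b, c⟩ ha hb
      rw [mem_triples] at ha
      simp only [mem_filter, mem_product, mem_range, mem_image, Prod.mk.injEq, Prod.exists] at hb
      obtain ⟨x, y, -, -, -, h7⟩ := hb
      omega

/-- A set of rank one contains at most one parallelogram. -/
lemma triples_le_two {S : Finset ℕ} (hr : rk S ≤ 1) (n : ℕ) :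
    ((triples n).filter (fun t => para t ⊆ S)).card ≤ 2 := by
  rcases ((triples n).filter (fun t => para t ⊆ S)).eq_empty_or_nonempty with he | ⟨⟨i, j, k⟩, ht⟩
  · rw [he]; simp
  · rw [mem_filter] at ht
    obtain ⟨ht1, ht2⟩ := ht
    have hsub : (triples n).filter (fun t => para t ⊆ S) ⊆ {(i, j, k), (i, i + k - j, k)} := by
      rintro ⟨i', j', k'⟩ ht'
      rw [mem_filter] at ht'
      obtain ⟨ht1', ht2'⟩ := ht'
      obtain ⟨v₀, hv₀⟩ := finrank_le_one_iff.mp hr
      -- the support of the vector of a parallelogram contained in `S`
      have key : ∀ i j k : ℕ, (i, j, k) ∈ triples n → para (i, j, k) ⊆ S →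
          ∀ x, (v₀ : ℕ → ℚ) x ≠ 0 ↔ x ∈ para (i, j, k) := by
        intro i j k h1 h2 x
        rw [mem_triples] at h1
        have hi : i ∈ S := h2 (by simp [para])
        have hk : k ∈ S := h2 (by simp [para])
        have hj : j ∈ S := h2 (by simp [para])
        have hl : i + k - j ∈ S := h2 (by simp [para])
        have hmem : qv i k j (i + k - j) ∈ V S := qv_mem_V hi hk hj hl (by omega)
        obtain ⟨c, hc⟩ := hv₀ ⟨_, hmem⟩
        have hc' : ∀ x, c * (v₀ : ℕ → ℚ) x = qv i k j (i + k - j) x := by
          intro x
          have := congrArg (fun w : V S => (w : ℕ → ℚ) x) hc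
          simpa using this
        have hc0 : c ≠ 0 := by
          rintro rfl
          have := hc' i
          rw [zero_mul] at this
          have n1 : i ≠ k := by omega
          have n2 : i ≠ j := by omega
          have n3 : i ≠ i + k - j := by omega
          simp only [qv, ind_self, ind_of_ne n1, ind_of_ne n2, ind_of_ne n3] at this
          norm_num at this
        have hx : (v₀ : ℕ → ℚ) x ≠ 0 ↔ qv i k j (i + k - j) x ≠ 0 := by
          rw [← hc' x]
          constructor
          · intro h; exact mul_ne_zero hc0 h
          · intro h h'; apply h; rw [h', mul_zero]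
        rw [hx]
        have n1 : i ≠ k := by omega
        have n2 : i ≠ j := by omega
        have n3 : i ≠ i + k - j := by omega
        have n4 : k ≠ j := by omega
        have n5 : k ≠ i + k - j := by omega
        have n6 : j ≠ i + k - j := by omega
        constructor
        · intro h
          by_contra hne
          simp only [para, mem_insert, mem_singleton, not_or] at hne
          obtain ⟨m1, m2, m3, m4⟩ := hne
          apply h
          simp only [qv, ind_of_ne m1, ind_of_ne m2, ind_of_ne m3, ind_of_ne m4]
          norm_num
        · intro h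
          simp only [para, mem_insert, mem_singleton] at h
          rcases h with h | h | h | h
          · rw [h]
            simp only [qv, ind_self, ind_of_ne n1, ind_of_ne n2, ind_of_ne n3]
            norm_num
          · rw [h]
            simp only [qv, ind_self, ind_of_ne n1.symm, ind_of_ne n4, ind_of_ne n5]
            norm_num
          · rw [h]
            simp only [qv, ind_self, ind_of_ne n2.symm, ind_of_ne n4.symm, ind_of_ne n6]
            norm_num
          · rw [h]
            simp only [qv, ind_self, ind_of_ne n3.symm, ind_of_ne n5.symm, ind_of_ne n6.symm]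
            norm_num
      have heq : ∀ x, x ∈ para (i, j, k) ↔ x ∈ para (i', j', k') := fun x =>
        (key i j k ht1 ht2 x).symm.trans (key i' j' k' ht1' ht2' x)
      have a1 := (heq i).mp (by simp [para])
      have a2 := (heq k).mp (by simp [para])
      have a3 := (heq i').mpr (by simp [para])
      have a4 := (heq k').mpr (by simp [para])
      have a5 := (heq j').mpr (by simp [para])
      simp only [para, mem_insert, mem_singleton] at a1 a2 a3 a4 a5
      rw [mem_triples] at ht1 ht1'
      simp only [mem_insert, mem_singleton, Prod.mk.injEq]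
      omega
    exact (card_le_card hsub).trans card_le_two

end Pool.Agent.Lib.MP_d8403e_co
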