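import Pool.Agent.Lib.MP_d8403e_co.Big
import Pool.Agent.Lib.MP_d8403e_co.Eleven2

/-!
# `159 = 13 * 12 + 3` is not a divot for large `n`
-/

namespace Pool.Agent.Lib.MP_d8403e_co

open Finset

/-- Upper bound for the number of sets with `161` differences. -/
lemma upper_161 : ∃ C : ℕ, ∀ n : ℕ, 0 < n → count n 161 ≤ C * n ^ 10 := by
  obtain ⟨C₁, hC₁⟩ := count_big 15 4 80 (by norm_num) (by decide)
  obtain ⟨C₂, hC₂⟩ := card_rank_le 14 4
  refine ⟨C₁ + C₂, fun n hn => ?_⟩
  have h0 : count n 161 = ((range n).powerset.filter (fun A => (pd A).card = 80)).card :=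
    count_eq n (d := 80) (by norm_num)
  have hsub : (range n).powerset.filter (fun A => (pd A).card = 80) ⊆
      (range n).powerset.filter (fun A => 15 ≤ A.card ∧ (pd A).card = 80) ∪
      ((range n).powersetCard 14).filter (fun A => 4 ≤ rk A) := by
    intro A hA
    rw [mem_filter, mem_powerset] at hA
    rw [mem_union, mem_filter, mem_filter, mem_powerset, mem_powersetCard]
    obtain ⟨hAn, hpd⟩ := hA
    have h1 := card_pd_add_loss A
    rcases Nat.lt_or_ge A.card 15 with hlt | hge
    · right
      have h2 : A.card = 14 := by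
        by_contra hne
        have h3 : A.card ≤ 13 := by omega
        have h4 := Nat.choose_le_choose 2 h3
        have h5 : Nat.choose 13 2 = 78 := by decide
        omega
      refine ⟨⟨hAn, h2⟩, ?_⟩
      by_contra hlt'
      rw [h2] at h1
      have h3 : Nat.choose 14 2 = 91 := by decide
      exact loss_ne_eleven A (by omega) (by omega)
    · left
      exact ⟨hAn, hge, hpd⟩
  rw [h0]
  refine (card_le_card hsub).trans ((card_union_le _ _).trans ?_)
  have h1 := hC₁ n hn
  have h2 := hC₂ n hn
  have e1 : 15 - 4 - 1 = 10 := by norm_num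
  have e2 : 14 - 4 = 10 := by norm_num
  rw [e1] at h1
  rw [e2] at h2
  rw [add_mul]
  exact add_le_add h1 h2

/-- The `i`-th small element. -/
def sm (h : ℕ) (y : Fin 11 → Fin h) (i : Fin 10) : ℕ := (i : ℕ) * h + (y i.castSucc : ℕ)

/-- The common sum of the four pairs. -/
def ctr (h : ℕ) (y : Fin 11 → Fin h) : ℕ := 20 * h + (y (Fin.last 10) : ℕ)

/-- The inclusion of the first four indices. -/
def emb (i : Fin 4) : Fin 10 := i.castLE (by norm_num)

/-- The small elements. -/
def lowPart (h : ℕ) (y : Fin 11 → Fin h) : Finset ℕ := univ.image (sm h y)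

/-- The mirror images of the four smallest elements. -/
def highPart (h : ℕ) (y : Fin 11 → Fin h) : Finset ℕ :=
  univ.image (fun i : Fin 4 => ctr h y - sm h y (emb i))

/-- A set with four pairs with the same sum and six other elements. -/
def fam (h : ℕ) (y : Fin 11 → Fin h) : Finset ℕ := lowPart h y ∪ highPart h y

lemma sm_lt (h : ℕ) (y : Fin 11 → Fin h) (i : Fin 10) : sm h y i < ((i : ℕ) + 1) * h := by
  unfold sm
  have := (y i.castSucc).isLt
  rw [add_mul, one_mul]; omega

lemma sm_ge (h : ℕ) (y : Fin 11 → Fin h) (i : Fin 10) : (i : ℕ) * h ≤ sm h y i := by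
  unfold sm; omega

lemma sm_lt_ten (h : ℕ) (y : Fin 11 → Fin h) (i : Fin 10) : sm h y i < 10 * h := by
  have h1 := sm_lt h y i
  have h2 : ((i : ℕ) + 1) * h ≤ 10 * h := Nat.mul_le_mul_right h (by omega)
  omega

lemma sm_lt_four (h : ℕ) (y : Fin 11 → Fin h) (i : Fin 4) : sm h y (emb i) < 4 * h := by
  have h1 := sm_lt h y (emb i)
  have h3 : ((emb i : Fin 10) : ℕ) = (i : ℕ) := rfl
  have h2 : (((emb i : Fin 10) : ℕ) + 1) * h ≤ 4 * h := Nat.mul_le_mul_right h (by omega)
  omega

lemma sm_strictMono (h : ℕ) (y : Fin 11 → Fin h) : StrictMono (sm h y) := by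
  intro i j hij
  have h1 := sm_lt h y i
  have h2 := sm_ge h y j
  have h3 : ((i : ℕ) + 1) * h ≤ (j : ℕ) * h := Nat.mul_le_mul_right h (by
    have : (i : ℕ) < (j : ℕ) := hij
    omega)
  omega

lemma ctr_bounds (h : ℕ) (y : Fin 11 → Fin h) : 20 * h ≤ ctr h y ∧ ctr h y < 21 * h := by
  unfold ctr
  have := (y (Fin.last 10)).isLt
  omega

lemma mem_high_bounds {h : ℕ} {y : Fin 11 → Fin h} {x : ℕ} (hx : x ∈ highPart h y) :
    16 * h < x ∧ x < 21 * h + 1 := by
  obtain ⟨i, -, rfl⟩ := mem_image.mp hx
  have h1 := sm_lt_four h y i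
  have h2 := ctr_bounds h y
  omega

lemma mem_low_bounds {h : ℕ} {y : Fin 11 → Fin h} {x : ℕ} (hx : x ∈ lowPart h y) :
    x < 10 * h := by
  obtain ⟨i, -, rfl⟩ := mem_image.mp hx
  exact sm_lt_ten h y i

lemma emb_inj : Function.Injective emb := by
  intro a b hab
  have : ((emb a : Fin 10) : ℕ) = ((emb b : Fin 10) : ℕ) := by rw [hab]
  exact Fin.ext this

lemma disj (h : ℕ) (y : Fin 11 → Fin h) : Disjoint (lowPart h y) (highPart h y) := by
  rw [disjoint_left]
  intro x h1 h2
  have := mem_low_bounds h1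
  have := mem_high_bounds h2
  omega

lemma card_high (h : ℕ) (y : Fin 11 → Fin h) : (highPart h y).card = 4 := by
  unfold highPart
  rw [card_image_of_injOn, card_univ, Fintype.card_fin]
  intro a _ b _ hab
  simp only at hab
  have h1 := sm_lt_four h y a
  have h2 := sm_lt_four h y b
  have h3 := ctr_bounds h y
  have h4 : sm h y (emb a) = sm h y (emb b) := by omega
  exact emb_inj ((sm_strictMono h y).injective h4)

lemma card_fam (h : ℕ) (y : Fin 11 → Fin h) : (fam h y).card = 14 := by
  unfold fam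
  rw [card_union_of_disjoint (disj h y), card_high]
  unfold lowPart
  rw [card_image_of_injective _ (sm_strictMono h y).injective, card_univ, Fintype.card_fin]

lemma fam_subset (h : ℕ) (y : Fin 11 → Fin h) {n : ℕ} (hn : 22 * h ≤ n) :
    fam h y ⊆ range n := by
  intro x hx
  rw [mem_range]
  rcases mem_union.mp hx with hx | hx
  · have := mem_low_bounds hx
    omega
  · have := mem_high_bounds hx
    have hpos : 0 < h := by
      have := (y 0).isLt
      omega
    omega

lemma loss_fam (h : ℕ) (y : Fin 11 → Fin h) : 12 ≤ loss (fam h y) := by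
  set T : Finset ℕ := univ.image (fun i : Fin 4 => sm h y (emb i)) ∪ highPart h y with hTdef
  have hsub : T ⊆ fam h y := by
    apply union_subset_union _ (Finset.Subset.refl _)
    intro x hx
    obtain ⟨i, -, rfl⟩ := mem_image.mp hx
    exact mem_image.mpr ⟨emb i, mem_univ _, rfl⟩
  have hc : T.card = 2 * 4 := by
    rw [hTdef, card_union_of_disjoint, card_high, card_image_of_injective, card_univ,
      Fintype.card_fin]
    · exact (sm_strictMono h y).injective.comp emb_inj
    · refine (disj h y).mono_left ?_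
      intro x hx
      obtain ⟨i, -, rfl⟩ := mem_image.mp hx
      exact mem_image.mpr ⟨emb i, mem_univ _, rfl⟩
  have h1 := loss_symm 4 T (ctr h y) hc (by
    intro x hx
    have h3 := ctr_bounds h y
    rw [hTdef, mem_union] at hx ⊢
    rcases hx with hx | hx
    · obtain ⟨i, -, rfl⟩ := mem_image.mp hx
      have h2 := sm_lt_four h y i
      refine ⟨by omega, Or.inr (mem_image.mpr ⟨i, mem_univ _, rfl⟩), by omega⟩
    · obtain ⟨i, -, rfl⟩ := mem_image.mp hx
      have h2 := sm_lt_four h y i
      refine ⟨by omega, Or.inl (mem_image.mpr ⟨i, mem_univ _, by omega⟩), by omega⟩)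
  exact h1.trans (loss_mono hsub)

lemma low_eq (h : ℕ) (y : Fin 11 → Fin h) :
    lowPart h y = (fam h y).filter (fun x => x < 10 * h) := by
  ext x
  rw [mem_filter]
  constructor
  · intro hx
    exact ⟨mem_union_left _ hx, mem_low_bounds hx⟩
  · rintro ⟨hx, hlt⟩
    rcases mem_union.mp hx with h3 | h3
    · exact h3
    · have := mem_high_bounds h3
      omega

lemma high_eq (h : ℕ) (y : Fin 11 → Fin h) :
    highPart h y = (fam h y).filter (fun x => ¬ x < 10 * h) := by
  ext x
  rw [mem_filter]
  constructor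
  · intro hx
    have := mem_high_bounds hx
    exact ⟨mem_union_right _ hx, by omega⟩
  · rintro ⟨hx, hlt⟩
    rcases mem_union.mp hx with h3 | h3
    · exact absurd (mem_low_bounds h3) hlt
    · exact h3

lemma fam_injective (h : ℕ) : Function.Injective (fam h) := by
  intro y y' hyy
  have hl : lowPart h y = lowPart h y' := by rw [low_eq, low_eq, hyy]
  have hh : highPart h y = highPart h y' := by rw [high_eq, high_eq, hyy]
  have hsm : ∀ i, sm h y i = sm h y' i := by
    intro i
    have h1 : sm h y i ∈ lowPart h y' := by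
      rw [← hl]; exact mem_image.mpr ⟨i, mem_univ _, rfl⟩
    obtain ⟨j, -, hj⟩ := mem_image.mp h1
    have a1 := sm_lt h y i
    have a2 := sm_ge h y i
    have a3 := sm_lt h y' j
    have a4 := sm_ge h y' j
    rcases lt_trichotomy (i : ℕ) (j : ℕ) with hij | hij | hij
    · have : ((i : ℕ) + 1) * h ≤ (j : ℕ) * h := Nat.mul_le_mul_right h hij
      omega
    · have : i = j := Fin.ext hij
      rw [this] at hj ⊢
      exact hj.symm
    · have : ((j : ℕ) + 1) * h ≤ (i : ℕ) * h := Nat.mul_le_mul_right h hij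
      omega
  have hc1 : ∀ z z' : Fin 11 → Fin h, highPart h z = highPart h z' → (∀ i, sm h z i = sm h z' i) →
      ctr h z ≤ ctr h z' := by
    intro z z' hz hs
    have h1 : ctr h z - sm h z (emb 0) ∈ highPart h z' := by
      rw [← hz]; exact mem_image.mpr ⟨0, mem_univ _, rfl⟩
    obtain ⟨j, -, hj⟩ := mem_image.mp h1
    have h2 : sm h z' (emb 0) ≤ sm h z' (emb j) := (sm_strictMono h z').monotone (Fin.zero_le _)
    have h3 := hs (emb 0)
    have h4 := sm_lt_four h z 0
    have h5 := sm_lt_four h z' j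
    have h6 := ctr_bounds h z
    have h7 := ctr_bounds h z'
    omega
  have hctr : ctr h y = ctr h y' :=
    le_antisymm (hc1 y y' hh hsm) (hc1 y' y hh.symm (fun i => (hsm i).symm))
  funext i
  refine Fin.lastCases ?_ (fun i => ?_) i
  · unfold ctr at hctr
    exact Fin.ext (by omega)
  · have := hsm i
    unfold sm at this
    exact Fin.ext (by omega)

/-- Lower bound for the number of sets with `159` differences. -/
lemma lower_159 : ∃ C : ℕ, ∀ n : ℕ, 0 < n → (n / 22) ^ 11 ≤ count n 159 + C * n ^ 10 := by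
  obtain ⟨C, hC⟩ := card_rank_le 14 4
  refine ⟨C, fun n hn => ?_⟩
  have h0 : count n 159 = ((range n).powerset.filter (fun A => (pd A).card = 79)).card :=
    count_eq n (d := 79) (by norm_num)
  set h := n / 22 with hh
  have hn22 : 22 * h ≤ n := by omega
  have hsub : (univ : Finset (Fin 11 → Fin h)).image (fam h) ⊆
      (range n).powerset.filter (fun A => (pd A).card = 79) ∪
      ((range n).powersetCard 14).filter (fun A => 4 ≤ rk A) := by
    intro S hS
    obtain ⟨y, -, rfl⟩ := mem_image.mp hS
    have h1 := fam_subset h y hn22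
    have h2 := card_fam h y
    have h3 := loss_fam h y
    have h4 := card_pd_add_loss (fam h y)
    have h5 := loss_le (fam h y)
    rw [mem_union, mem_filter, mem_filter, mem_powerset, mem_powersetCard]
    by_cases hr : 4 ≤ rk (fam h y)
    · right; exact ⟨⟨h1, h2⟩, hr⟩
    · left
      refine ⟨h1, ?_⟩
      have h6 : rk (fam h y) * (rk (fam h y) + 1) ≤ 3 * (3 + 1) :=
        Nat.mul_le_mul (by omega) (by omega)
      rw [h2] at h4
      have h7 : Nat.choose 14 2 = 91 := by decide
      omega
  have h1 := card_le_card hsub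
  rw [card_image_of_injective _ (fam_injective h)] at h1
  have h2 : (univ : Finset (Fin 11 → Fin h)).card = h ^ 11 := by simp
  have h3 := hC n hn
  have e2 : 14 - 4 = 10 := by norm_num
  rw [e2] at h3
  have h4 := card_union_le ((range n).powerset.filter (fun A => (pd A).card = 79))
    (((range n).powersetCard 14).filter (fun A => 4 ≤ rk A))
  omega

/-- For large `n` there are more subsets of `[n]` with `159` differences than with `161`. -/
theorem count_161_lt : ∃ N : ℕ, ∀ n ≥ N, count n 161 < count n 159 := by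
  obtain ⟨C₁, hC₁⟩ := upper_161
  obtain ⟨C₂, hC₂⟩ := lower_159
  refine ⟨44 * (44 ^ 10 * (C₁ + C₂) + 1), fun n hn => ?_⟩
  have hn0 : 0 < n := by omega
  have h1 := hC₁ n hn0
  have h2 := hC₂ n hn0
  set h := n / 22 with hh
  have h3 : n ≤ 44 * h := by omega
  have h4 : 44 ^ 10 * (C₁ + C₂) < h := by omega
  have h5 : n ^ 10 ≤ (44 * h) ^ 10 := Nat.pow_le_pow_left h3 10
  rw [mul_pow] at h5
  have h6 : 0 < h ^ 10 := pow_pos (by omega) 10
  have h7 : (C₁ + C₂) * n ^ 10 < h ^ 11 := by
    calc (C₁ + C₂) * n ^ 10 ≤ (C₁ + C₂) * (44 ^ 10 * h ^ 10) := Nat.mul_le_mul_left _ h5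
      _ = (44 ^ 10 * (C₁ + C₂)) * h ^ 10 := by ring
      _ < h * h ^ 10 := Nat.mul_lt_mul_of_pos_right h4 h6
      _ = h ^ 11 := by ring
  rw [add_mul] at h7
  omega

end Pool.Agent.Lib.MP_d8403e_co
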