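import Pool.Agent.Lib.MP_d8403e_co.Basic

/-!
# The rank of a set: the dimension of the span of its additive quadruples
-/

namespace Pool.Agent.Lib.MP_d8403e_co

open Finset

/-- Indicator function of a point. -/
def ind (a : ℕ) (x : ℕ) : ℚ := if x = a then 1 else 0

/-- The vector of an additive quadruple `a + d = b + c`. -/
def qv (a d b c : ℕ) : ℕ → ℚ := fun x => ind a x + ind d x - ind b x - ind c x

/-- The vectors of the additive quadruples of `A`. -/
def quads (A : Finset ℕ) : Set (ℕ → ℚ) :=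
  {v | ∃ a ∈ A, ∃ d ∈ A, ∃ b ∈ A, ∃ c ∈ A, a + d = b + c ∧ v = qv a d b c}

/-- The span of the vectors of the additive quadruples of `A`. -/
def V (A : Finset ℕ) : Submodule ℚ (ℕ → ℚ) := Submodule.span ℚ (quads A)

/-- The rank of `A`. -/
noncomputable def rk (A : Finset ℕ) : ℕ := Module.finrank ℚ (V A)

lemma ind_self (a : ℕ) : ind a a = 1 := by simp [ind]

lemma ind_of_ne {a x : ℕ} (h : x ≠ a) : ind a x = 0 := by simp [ind, h]

lemma ind_nonneg (a x : ℕ) : 0 ≤ ind a x := by
  unfold ind; split_ifs <;> norm_num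

lemma ind_le_one (a x : ℕ) : ind a x ≤ 1 := by
  unfold ind; split_ifs <;> norm_num

lemma quads_finite (A : Finset ℕ) : (quads A).Finite := by
  have : quads A ⊆ (fun p : ℕ × ℕ × ℕ × ℕ => qv p.1 p.2.1 p.2.2.1 p.2.2.2) ''
      ((A ×ˢ A ×ˢ A ×ˢ A : Finset (ℕ × ℕ × ℕ × ℕ)) : Set (ℕ × ℕ × ℕ × ℕ)) := by
    rintro v ⟨a, ha, d, hd, b, hb, c, hc, -, rfl⟩
    refine ⟨(a, d, b, c), ?_, rfl⟩
    simp [ha, hb, hc, hd]
  exact ((Finset.finite_toSet _).image _).subset this

instance (A : Finset ℕ) : FiniteDimensional ℚ (V A) :=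
  FiniteDimensional.span_of_finite ℚ (quads_finite A)

lemma quads_subset_V (A : Finset ℕ) : quads A ⊆ V A := Submodule.subset_span

lemma quads_mono {A B : Finset ℕ} (h : A ⊆ B) : quads A ⊆ quads B := by
  rintro v ⟨a, ha, d, hd, b, hb, c, hc, h1, rfl⟩
  exact ⟨a, h ha, d, h hd, b, h hb, c, h hc, h1, rfl⟩

lemma V_mono {A B : Finset ℕ} (h : A ⊆ B) : V A ≤ V B := Submodule.span_mono (quads_mono h)

lemma rk_mono {A B : Finset ℕ} (h : A ⊆ B) : rk A ≤ rk B :=
  Submodule.finrank_mono (V_mono h)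

lemma qv_mem_V {A : Finset ℕ} {a d b c : ℕ} (ha : a ∈ A) (hd : d ∈ A) (hb : b ∈ A) (hc : c ∈ A)
    (h : a + d = b + c) : qv a d b c ∈ V A :=
  quads_subset_V A ⟨a, ha, d, hd, b, hb, c, hc, h, rfl⟩

/-- A linear condition that holds for all quadruples holds on `V A`. -/
lemma V_induction {A : Finset ℕ} (f : (ℕ → ℚ) →ₗ[ℚ] ℚ) (h : ∀ v ∈ quads A, f v = 0)
    {v : ℕ → ℚ} (hv : v ∈ V A) : f v = 0 := by
  have : V A ≤ LinearMap.ker f := Submodule.span_le.mpr (fun v hv => h v hv)
  exact this hv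

lemma V_vanish {A : Finset ℕ} {v : ℕ → ℚ} (hv : v ∈ V A) {x : ℕ} (hx : x ∉ A) : v x = 0 := by
  refine V_induction (LinearMap.proj x) ?_ hv
  rintro w ⟨a, ha, d, hd, b, hb, c, hc, -, rfl⟩
  have h1 : x ≠ a := fun h => hx (h ▸ ha)
  have h2 : x ≠ b := fun h => hx (h ▸ hb)
  have h3 : x ≠ c := fun h => hx (h ▸ hc)
  have h4 : x ≠ d := fun h => hx (h ▸ hd)
  simp [qv, ind, h1, h2, h3, h4]

lemma V_sum_zero {A : Finset ℕ} {v : ℕ → ℚ} (hv : v ∈ V A) : ∑ x ∈ A, v x = 0 := by
  have : ∑ x ∈ A, v x = (∑ x ∈ A, LinearMap.proj x : (ℕ → ℚ) →ₗ[ℚ] ℚ) v := by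
    simp
  rw [this]
  refine V_induction _ ?_ hv
  rintro w ⟨a, ha, d, hd, b, hb, c, hc, -, rfl⟩
  simp [qv, ind, sum_add_distrib, sum_sub_distrib, ha, hb, hc, hd]

lemma rk_lt_of_mem {A B : Finset ℕ} (h : A ⊆ B) {v : ℕ → ℚ} (hv : v ∈ V B) {x : ℕ} (hx : x ∉ A)
    (hvx : v x ≠ 0) : rk A < rk B := by
  apply Submodule.finrank_lt_finrank_of_lt
  refine lt_of_le_of_ne (V_mono h) ?_
  intro heq
  rw [← heq] at hv
  exact hvx (V_vanish hv hx)

lemma rk_erase_lt {A : Finset ℕ} {v : ℕ → ℚ} (hv : v ∈ V A) {x : ℕ} (hvx : v x ≠ 0) :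
    rk (A.erase x) < rk A :=
  rk_lt_of_mem (erase_subset x A) hv (notMem_erase x A) hvx

/-- When the rank drops by exactly one on removing `p`, the space of the smaller set is the set of
vectors of the larger space vanishing at `p`. -/
lemma mem_V_of_eval_zero {p : ℕ} {A : Finset ℕ} (hp : p ∉ A) (h : rk (insert p A) ≤ rk A + 1)
    {w : ℕ → ℚ} (hw : w ∈ V (insert p A)) (hwp : w p ≠ 0) {v : ℕ → ℚ}
    (hv : v ∈ V (insert p A)) (hvp : v p = 0) : v ∈ V A := by
  set K : Submodule ℚ (ℕ → ℚ) := V (insert p A) ⊓ LinearMap.ker (LinearMap.proj p) with hK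
  have h1 : V A ≤ K := by
    refine le_inf (V_mono (subset_insert p A)) ?_
    intro z hz
    exact V_vanish hz hp
  have h2 : K < V (insert p A) := by
    refine lt_of_le_of_ne inf_le_left ?_
    intro heq
    have : w ∈ K := by rw [heq]; exact hw
    exact hwp this.2
  have h3 := Submodule.finrank_lt_finrank_of_lt h2
  have : FiniteDimensional ℚ K := Submodule.finiteDimensional_of_le h2.le
  have h4 : V A = K := by
    apply Submodule.eq_of_le_of_finrank_le h1
    unfold rk at h
    omega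
  rw [h4]
  exact ⟨hv, hvp⟩

/-- Greedy star cover. -/
lemma exists_cover (t : ℕ → ℕ) (F : Finset ℕ) : ∃ L ⊆ F, F ⊆ L ∪ L.image t ∧
    ∀ l ∈ L, ∀ m ∈ L, t m = l → l ≤ m := by
  induction F using Finset.induction_on_max with
  | empty => exact ⟨∅, by simp, by simp, by simp⟩
  | insert a F ha ih =>
    obtain ⟨L, hL, hF, hd⟩ := ih
    by_cases h : a ∈ L.image t
    · refine ⟨L, hL.trans (subset_insert a F), ?_, hd⟩
      intro x hx
      rcases mem_insert.mp hx with rfl | hx
      · exact mem_union_right _ h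
      · exact hF hx
    · refine ⟨insert a L, insert_subset_insert a hL, ?_, ?_⟩
      · intro x hx
        rcases mem_insert.mp hx with rfl | hx
        · exact mem_union_left _ (mem_insert_self x L)
        · rcases mem_union.mp (hF hx) with h' | h'
          · exact mem_union_left _ (mem_insert_of_mem h')
          · refine mem_union_right _ ?_
            exact (image_subset_image (subset_insert a L)) h'
      · intro l hl m hm hlm
        rcases mem_insert.mp hm with hm' | hm'
        · rcases mem_insert.mp hl with hl' | hl'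
          · omega
          · rw [hm']; exact (ha l (hL hl')).le
        · rcases mem_insert.mp hl with hl' | hl'
          · exact absurd (mem_image.mpr ⟨m, hm', hlm.trans hl'⟩) h
          · exact hd l hl' m hm' hlm

/-- Triangular families are linearly independent. -/
lemma linInd_triangular (R : ℕ → ℕ → ℚ) (L : Finset ℕ) (h1 : ∀ l ∈ L, R l l ≠ 0)
    (h2 : ∀ l ∈ L, ∀ m ∈ L, m < l → R m l = 0) : LinearIndepOn ℚ R (L : Set ℕ) := by
  induction L using Finset.induction_on_max with
  | empty => simp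
  | insert a L ha ih =>
    have haL : a ∉ (L : Set ℕ) := fun h => lt_irrefl _ (ha a h)
    rw [coe_insert, linearIndepOn_insert haL]
    refine ⟨ih (fun l hl => h1 l (mem_insert_of_mem hl))
      (fun l hl m hm => h2 l (mem_insert_of_mem hl) m (mem_insert_of_mem hm)), ?_⟩
    intro hmem
    have : Submodule.span ℚ (R '' (L : Set ℕ)) ≤ LinearMap.ker (LinearMap.proj a) := by
      rw [Submodule.span_le]
      rintro v ⟨m, hm, rfl⟩
      exact h2 a (mem_insert_self a L) m (mem_insert_of_mem hm) (ha m hm)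
    exact h1 a (mem_insert_self a L) (this hmem)

/-- The star cover of `G p A`, with the corresponding independent relations. -/
lemma star {p : ℕ} {A : Finset ℕ} (hp : ∀ x ∈ A, x < p) :
    ∃ (L : Finset ℕ) (t u : ℕ → ℕ), L ⊆ G p A ∧ G p A ⊆ L ∪ L.image t ∧
      (∀ l ∈ G p A, l ∈ A ∧ t l ∈ A ∧ u l ∈ A ∧ p + u l = l + t l) ∧
      LinearIndepOn ℚ (fun l => qv p (u l) l (t l)) (L : Set ℕ) := by
  have h : ∀ s, ∃ t u, s ∈ G p A → (s ∈ A ∧ t ∈ A ∧ u ∈ A ∧ p + u = s + t) := by
    intro s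
    by_cases hs : s ∈ G p A
    · obtain ⟨h1, t, ht, u, hu, h2⟩ := (mem_G hp).mp hs
      exact ⟨t, u, fun _ => ⟨h1, ht, hu, h2⟩⟩
    · exact ⟨0, 0, fun h => absurd h hs⟩
  choose t u htu using h
  obtain ⟨L, hL, hF, hd⟩ := exists_cover t (G p A)
  refine ⟨L, t, u, hL, hF, htu, ?_⟩
  apply linInd_triangular (fun l => qv p (u l) l (t l))
  · intro l hl
    obtain ⟨h1, h2, h3, h4⟩ := htu l (hL hl)
    have h5 := hp l h1
    have h6 := hp _ h2
    have h7 : l ≠ p := by omega
    have h8 : l ≠ u l := by omega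
    simp only [qv, ind_self, ind_of_ne h7, ind_of_ne h8]
    have := ind_nonneg (t l) l
    intro h9
    linarith
  · intro l hl m hm hml
    obtain ⟨h1, h2, h3, h4⟩ := htu m (hL hm)
    have h5 := hp m h1
    have h6 := hp _ h2
    have h10 := hp l (htu l (hL hl)).1
    have h7 : l ≠ p := by omega
    have h8 : l ≠ u m := by omega
    have h9 : l ≠ m := by omega
    have h11 : l ≠ t m := by
      intro h
      have := hd l hl m hm h.symm
      omega
    simp only [qv, ind_of_ne h7, ind_of_ne h8, ind_of_ne h9, ind_of_ne h11]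
    norm_num

lemma card_le_rk {A L : Finset ℕ} {R : ℕ → ℕ → ℚ} (h : LinearIndepOn ℚ R (L : Set ℕ))
    (hR : ∀ l ∈ L, R l ∈ V A) : L.card ≤ rk A := by
  have h1 : LinearIndependent ℚ (fun l : (L : Set ℕ) => (⟨R l, hR l l.2⟩ : V A)) := by
    apply LinearIndependent.of_comp (V A).subtype
    exact h
  have h2 := h1.fintype_card_le_finrank
  unfold rk
  simpa using h2

lemma card_G_le {p : ℕ} {A : Finset ℕ} (hp : ∀ x ∈ A, x < p) :
    (G p A).card ≤ 2 * rk (insert p A) := by
  obtain ⟨L, t, u, hL, hG, htu, hind⟩ := star hp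
  have h1 : L.card ≤ rk (insert p A) := by
    refine card_le_rk hind ?_
    intro l hl
    obtain ⟨h1, h2, h3, h4⟩ := htu l (hL hl)
    exact qv_mem_V (mem_insert_self p A) (mem_insert_of_mem h3) (mem_insert_of_mem h1)
      (mem_insert_of_mem h2) h4
  have h2 := card_le_card hG
  have h3 := card_union_le L (L.image t)
  have h4 := card_image_le (s := L) (f := t)
  omega

lemma exists_quad_of_G {p : ℕ} {A : Finset ℕ} (hp : ∀ x ∈ A, x < p) (hG : (G p A).Nonempty) :
    ∃ w ∈ V (insert p A), w p = 1 := by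
  obtain ⟨s, hs⟩ := hG
  obtain ⟨h1, t, ht, u, hu, h2⟩ := (mem_G hp).mp hs
  refine ⟨qv p u s t, qv_mem_V (mem_insert_self p A) (mem_insert_of_mem hu) (mem_insert_of_mem h1)
      (mem_insert_of_mem ht) h2, ?_⟩
  have h3 : p ≠ u := (hp u hu).ne'
  have h4 : p ≠ s := (hp s h1).ne'
  have h5 : p ≠ t := (hp t ht).ne'
  simp [qv, ind, h3, h4, h5]

lemma rk_lt_of_G {p : ℕ} {A : Finset ℕ} (hp : ∀ x ∈ A, x < p) (hG : (G p A).Nonempty) :
    rk A < rk (insert p A) := by
  obtain ⟨w, hw, hw1⟩ := exists_quad_of_G hp hG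
  exact rk_lt_of_mem (subset_insert p A) hw (fun h => lt_irrefl _ (hp p h))
    (by rw [hw1]; norm_num)

/-- The loss is at most `q (q + 1)` where `q` is the rank. -/
lemma loss_le (A : Finset ℕ) : loss A ≤ rk A * (rk A + 1) := by
  induction A using Finset.induction_on_max with
  | empty => simp [loss]
  | insert p A hp ih =>
    rw [loss_insert hp]
    rcases (G p A).eq_empty_or_nonempty with hG | hG
    · rw [hG, card_empty, add_zero]
      have := rk_mono (subset_insert p A)
      exact ih.trans (Nat.mul_le_mul this (by omega))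
    · have h1 := rk_lt_of_G hp hG
      have h2 := card_G_le hp
      obtain ⟨m, hm⟩ : ∃ m, rk (insert p A) = m + 1 := ⟨rk (insert p A) - 1, by omega⟩
      rw [hm] at h1 h2 ⊢
      have h3 : rk A * (rk A + 1) ≤ m * (m + 1) := Nat.mul_le_mul (by omega) (by omega)
      nlinarith

/-- If no quadruple uses `p`, then nothing changes. -/
lemma V_insert_of_G_empty {p : ℕ} {A : Finset ℕ} (hp : ∀ x ∈ A, x < p) (hG : G p A = ∅) :
    V (insert p A) = V A := by
  apply le_antisymm _ (V_mono (subset_insert p A))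
  refine Submodule.span_le.mpr ?_
  have key : ∀ s ∈ A, ∀ t ∈ A, ∀ u ∈ A, p + u ≠ s + t := by
    intro s hs t ht u hu h
    have : s ∈ G p A := (mem_G hp).mpr ⟨hs, t, ht, u, hu, h⟩
    rw [hG] at this
    exact absurd this (notMem_empty s)
  rintro v ⟨a, ha, d, hd, b, hb, c, hc, h, rfl⟩
  rw [mem_insert] at ha hd hb hc
  have hz : ∀ a d b c : ℕ, (a = b ∧ d = c ∨ a = c ∧ d = b) → qv a d b c = 0 := by
    rintro a d b c (⟨rfl, rfl⟩ | ⟨rfl, rfl⟩)
    · ext x; simp [qv]
    · ext x; simp [qv]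
  by_cases hdeg : (a = b ∧ d = c ∨ a = c ∧ d = b)
  · rw [hz a d b c hdeg]; exact (V A).zero_mem
  · push Not at hdeg
    rcases ha with ha | ha <;> rcases hd with hd | hd <;> rcases hb with hb | hb <;>
      rcases hc with hc | hc
    all_goals first
      | exact qv_mem_V ha hd hb hc h
      | (exfalso
         first
          | (subst ha; exact key _ hb _ hc _ hd h)
          | (subst hd; exact key _ hb _ hc _ ha (by omega))
          | (subst hb; exact key _ ha _ hd _ hc (by omega))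
          | (subst hc; exact key _ ha _ hd _ hb (by omega))
          | (subst ha; have := hp _ hb; have := hp _ hc; omega)
          | (subst hb; have := hp _ ha; have := hp _ hd; omega)
          | omega)

lemma exists_quad_ne_zero {A : Finset ℕ} (h : rk A ≠ 0) : ∃ v ∈ quads A, v ≠ 0 := by
  by_contra hne
  push Not at hne
  apply h
  have : V A = ⊥ := by
    rw [V, Submodule.span_eq_bot]
    exact hne
  rw [rk, this, finrank_bot]

lemma rk_pos_of_loss {A : Finset ℕ} (h : 0 < loss A) : rk A ≠ 0 := by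
  intro h0
  have := loss_le A
  rw [h0] at this
  omega

end Pool.Agent.Lib.MP_d8403e_co
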